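import Pool.Agent.MP_7915da_nt.J77.Defs

namespace Pool.Agent.MP_7915da_nt.J77
open Finset Real
open scoped Classical

lemma AVGx.atom {p : ℕ} [hp : Fact p.Prime] {l : ℕ} {c d δ N : ℝ} (hc : 0 < c) (hd : 0 < d)
    (hδ : 0 < δ) (G : Gain p l (c / 2) (d / 2) δ) (hN : d ≤ N) {Ω B : Type} [Fintype B] (ν : FA Ω)
    (Φ : Ω → B) (X Y K : Ω → ZMod (p ^ l)) (h1 : ν.H (pr K (pr Φ Y)) - ν.H (pr Φ Y) ≤ N)
    (h2 : Det (pr Φ K) Y) :
    δ * ((ν.H (fun z => red p l (X z)) - c / 2) / log p -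
      2 * ((N - (ν.H (pr K (pr Φ Y)) - ν.H (pr Φ Y))) + (ν.H Y - (ν.H (pr Y Φ) - ν.H Φ))) / d) ≤
      (ν.H X + ν.H Y - ν.H (pr X Y)) + (ν.H X + ν.H (fun z => X z + Y z) - ν.H (pr X Y)) := by
  have lp : 0 < log p := log_pos (by exact_mod_cast hp.out.one_lt)
  have a1 := (ν.H_pair X Y).1
  have a2 := (ν.H_pair X fun z => X z + Y z).1
  have a3 : ν.H (pr X Y) ≤ ν.H (pr X fun z => X z + Y z) := ν.H_det fun z z' e => by
    obtain ⟨e1, e2⟩ := pr_eq.1 e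
    refine pr_eq.2 ⟨e1, ?_⟩
    rw [e1] at e2
    exact add_left_cancel e2
  have a4 := (ν.H_pair Y Φ).1
  have a5 := ν.H_le_card fun z => red p l (X z)
  rw [ZMod.card] at a5
  have a6 := ν.H_le_card K
  rw [ZMod.card, Nat.cast_pow, log_pow] at a6
  have a7 : ν.H (pr K (pr Φ Y)) ≤ ν.H (pr K Φ) := ν.H_det fun z z' e => by
    obtain ⟨e1, e2⟩ := pr_eq.1 e
    exact pr_eq.2 ⟨e1, pr_eq.2 ⟨e2, h2 z z' (pr_eq.2 ⟨e2, e1⟩)⟩⟩
  have a8 := (ν.H_pair K Φ).1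
  have a9 := ν.H_swap Y Φ
  have g := G Ω ν X Y
  generalize ν.H (fun z => red p l (X z)) = f1 at *
  have b1 : (f1 - c / 2) / log p ≤ 1 := by rw [div_le_one lp]; linarith
  obtain ⟨f2, hf⟩ : ∃ f2, f2 =
    (N - (ν.H (pr K (pr Φ Y)) - ν.H (pr Φ Y))) + (ν.H Y - (ν.H (pr Y Φ) - ν.H Φ)) := ⟨_, rfl⟩
  rw [← hf]
  have b2 : 0 ≤ 2 * f2 / d := div_nonneg (by linarith) hd.le
  rcases lt_or_ge f1 (c / 2) with k | k
  · have : (f1 - c / 2) / log p ≤ 0 := div_nonpos_of_nonpos_of_nonneg (by linarith) lp.le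
    have := mul_nonpos_of_nonneg_of_nonpos hδ.le
      (show (f1 - c / 2) / log p - 2 * f2 / d ≤ 0 by linarith)
    linarith
  rcases le_or_gt (ν.H Y) (l * log p - d / 2) with k' | k'
  · have := mul_le_mul_of_nonneg_left
      (show (f1 - c / 2) / log p - 2 * f2 / d ≤ 1 by linarith) hδ.le
    have := g k k'
    linarith
  · have : 1 ≤ 2 * f2 / d := by rw [le_div_iff₀ hd]; linarith
    have := mul_nonpos_of_nonneg_of_nonpos hδ.le
      (show (f1 - c / 2) / log p - 2 * f2 / d ≤ 0 by linarith)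
    linarith

theorem AVG : AVG_s := by
  intro p hp l c d δ N hc hd hδ G hN Ω A B _ _ μ O Φ X Y K hO h1 h2 h3
  have lp : 0 < log p := log_pos (by exact_mod_cast hp.out.one_lt)
  have S := sum_le_sum fun (a : A) (_ : a ∈ univ) => mul_le_mul_of_nonneg_left
    (AVGx.atom hc hd hδ G hN (μ.cond {z | O z = a}) Φ X Y K (h1 _) h2) (μ.nn {z | O z = a})
  have one := μ.sum_P O
  have c1 := μ.H_cond (fun z => red p l (X z)) O
  have c2 := μ.H_cond (pr K (pr Φ Y)) O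
  have c3 := μ.H_cond (pr Φ Y) O
  have c4 := μ.H_cond Y O
  have c5 := μ.H_cond (pr Y Φ) O
  have c6 := μ.H_cond Φ O
  have c7 := μ.H_cond X O
  have c8 := μ.H_cond (pr X Y) O
  have c9 := μ.H_cond (fun z => X z + Y z) O
  have d0 : ∀ {C : Type} [Fintype C] (φ : Ω → C), Det φ O → μ.H (pr φ O) = μ.H φ :=
    fun φ h => μ.H_eq (fun z z' e => (pr_eq.1 e).1) fun z z' e => pr_eq.2 ⟨e, h z z' e⟩
  rw [d0 _ fun z z' e => hO z z' (pr_eq.1 (pr_eq.1 e).2).1] at c2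
  rw [d0 _ fun z z' e => hO z z' (pr_eq.1 e).1] at c3
  rw [d0 _ fun z z' e => hO z z' (pr_eq.1 e).2] at c5
  rw [d0 _ hO] at c6
  have L : ∀ (w f1 g2 g3 g4 g5 g6 : A → ℝ), ∑ a, w a * (δ * ((f1 a - c / 2) / log p -
      2 * ((N - (g2 a - g3 a)) + (g4 a - (g5 a - g6 a))) / d)) =
      δ * ((∑ a, w a * f1 a - c / 2 * ∑ a, w a) / log p -
      2 * ((N * ∑ a, w a - (∑ a, w a * g2 a - ∑ a, w a * g3 a)) +
        (∑ a, w a * g4 a - (∑ a, w a * g5 a - ∑ a, w a * g6 a))) / d) := by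
    intro w f1 g2 g3 g4 g5 g6
    simp only [mul_sum, ← sum_sub_distrib, ← sum_add_distrib, sum_div]
    exact sum_congr rfl fun a _ => by ring
  have R : ∀ (w g7 g4 g8 g9 : A → ℝ), ∑ a, w a * ((g7 a + g4 a - g8 a) + (g7 a + g9 a - g8 a)) =
      (∑ a, w a * g7 a + ∑ a, w a * g4 a - ∑ a, w a * g8 a) +
        (∑ a, w a * g7 a + ∑ a, w a * g9 a - ∑ a, w a * g8 a) := by
    intro w g7 g4 g8 g9
    simp only [← sum_sub_distrib, ← sum_add_distrib]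
    exact sum_congr rfl fun a _ => by ring
  rw [L, R, one, ← c1, ← c2, ← c3, ← c4, ← c5, ← c6, ← c7, ← c8, ← c9] at S
  refine le_trans (mul_le_mul_of_nonneg_left ?_ hδ.le) (S.trans (le_of_eq (by ring)))
  have : c / (2 * log p) ≤ (μ.H (pr (fun z => red p l (X z)) O) - μ.H O - c / 2 * 1) / log p := by
    rw [← div_div]
    exact div_le_div_of_nonneg_right (by linarith) lp.le
  refine sub_le_sub this (le_of_eq ?_)
  ring

end Pool.Agent.MP_7915da_nt.J77
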