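import Pool.Agent.MP_7915da_nt.J77.Defs

namespace Pool.Agent.MP_7915da_nt.J77
open Finset Real
open scoped Classical

theorem CAP : CAP_s := by
  intro p hp ψ G ν o l L hl
  refine ν.H_count' _ _ (by exact_mod_cast NN_pos hp.out.pos ψ l) fun b => ?_
  by_cases k : ∃ z0, pr (blk p (o + l) L) (vv p ψ o l) z0 = b
  · obtain ⟨z0, k⟩ := k
    refine ⟨image (fun w : ℕ => (w : ZMod (p ^ l)))
      {w ∈ range (p ^ l) | ψ l (p ^ l * (z0 / p ^ (o + l)) + w) ≡ ψ l (z0 / p ^ o)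
        [ZMOD (p : ℤ) ^ l]}, ?_, fun z hz => ?_⟩
    · exact_mod_cast card_image_le.trans (cnt_le p ψ l _ _)
    · obtain ⟨h1, h2⟩ := pr_eq.1 (hz.trans k.symm)
      rw [blk_eq] at h1
      rw [vv_eq] at h2
      refine mem_image.2 ⟨z / p ^ o % p ^ l, mem_filter.2
        ⟨mem_range.2 (Nat.mod_lt _ (pow_pos hp.out.pos l)), (G.loc l _ _ ?_).trans h2⟩,
        ZMod.natCast_mod _ _⟩
      have h3 := (h1.of_dvd (pow_dvd_pow p hl)).symm.mul_left' (p ^ l)
      rw [← pow_add, ← two_mul] at h3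
      have h4 := h3.add_right (z / p ^ o % p ^ l)
      rwa [pow_add p o l, ← Nat.div_div_eq_div_mul z, Nat.div_add_mod, ← pow_add p o l] at h4
  · exact ⟨∅, by simp, fun z hz => (k ⟨z, hz⟩).elim⟩

end Pool.Agent.MP_7915da_nt.J77
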