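import Mathlib

/-! h77j: entropy toolkit for finitely additive probabilities, objects and row statements. -/

namespace Pool.Agent.MP_7915da_nt.J77
open Finset Real
open scoped Classical

/-- finitely additive probability on all subsets -/
structure FA (Ω : Type) where
  P : Set Ω → ℝ
  nn : ∀ s, 0 ≤ P s
  one : P Set.univ = 1
  add : ∀ s t, Disjoint s t → P (s ∪ t) = P s + P t

variable {Ω A B C D : Type}

/-- `φ` determines `χ` -/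
def Det (φ : Ω → A) (χ : Ω → B) : Prop := ∀ z z', φ z = φ z' → χ z = χ z'

/-- pair of random variables -/
def pr (φ : Ω → A) (χ : Ω → B) : Ω → A × B := fun z => (φ z, χ z)

lemma pr_eq {φ : Ω → A} {χ : Ω → B} {z z' : Ω} :
    pr φ χ z = pr φ χ z' ↔ φ z = φ z' ∧ χ z = χ z' := Prod.ext_iff

namespace FA
variable (μ : FA Ω)

/-- entropy -/
noncomputable def H [Fintype A] (φ : Ω → A) : ℝ := ∑ a, negMulLog (μ.P {z | φ z = a})

/-- conditioning on a set (unchanged if the set is null) -/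
noncomputable def cond (s : Set Ω) : FA Ω :=
  if h : 0 < μ.P s then
    ⟨fun t => μ.P (t ∩ s) / μ.P s, fun _ => div_nonneg (μ.nn _) h.le,
      by rw [Set.univ_inter, div_self h.ne'], fun t t' d => by
        rw [Set.union_inter_distrib_right, μ.add _ _
          (d.mono Set.inter_subset_left Set.inter_subset_left), add_div]⟩
  else μ

lemma cond_P {s : Set Ω} (h : 0 < μ.P s) (t : Set Ω) :
    (μ.cond s).P t = μ.P (t ∩ s) / μ.P s := by rw [cond, dif_pos h]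

lemma empty : μ.P ∅ = 0 := by
  have := μ.add ∅ ∅ disjoint_bot_left
  rw [Set.union_self] at this
  linarith

lemma compl (s t : Set Ω) : μ.P s = μ.P (s ∩ t) + μ.P (s \ t) := by
  rw [← μ.add _ _ (Set.disjoint_sdiff_inter.symm), Set.inter_union_sdiff]

lemma mono {s t : Set Ω} (h : s ⊆ t) : μ.P s ≤ μ.P t := by
  rw [μ.compl t s, Set.inter_eq_self_of_subset_right h]
  linarith [μ.nn (t \ s)]

lemma le_one (s : Set Ω) : μ.P s ≤ 1 := μ.one ▸ μ.mono (Set.subset_univ s)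

lemma fib (φ : Ω → A) (s : Set Ω) (t : Finset A) :
    ∑ a ∈ t, μ.P ({z | φ z = a} ∩ s) = μ.P ({z | φ z ∈ t} ∩ s) := by
  induction t using Finset.induction_on with
  | empty => simp [μ.empty]
  | insert a t ha ih =>
    rw [sum_insert ha, ih, ← μ.add]
    · congr 1
      ext z
      simp only [Set.mem_union, Set.mem_inter_iff, Set.mem_ofPred_eq, mem_insert]
      tauto
    · rw [Set.disjoint_left]
      rintro z ⟨h1, -⟩ ⟨h2, -⟩
      exact ha (h1 ▸ h2)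

lemma sum_inter [Fintype A] (φ : Ω → A) (s : Set Ω) :
    ∑ a, μ.P ({z | φ z = a} ∩ s) = μ.P s := by simp [μ.fib]

lemma sum_P [Fintype A] (φ : Ω → A) : ∑ a, μ.P {z | φ z = a} = 1 := by
  simpa [μ.one] using μ.sum_inter φ Set.univ

variable [Fintype A] [Fintype B] [Fintype C] [Fintype D]

lemma H_nonneg (φ : Ω → A) : 0 ≤ μ.H φ :=
  sum_nonneg fun _ _ => negMulLog_nonneg (μ.nn _) (μ.le_one _)

lemma H_pr (φ : Ω → A) (η : Ω → B) :
    μ.H (pr φ η) = ∑ b, ∑ a, negMulLog (μ.P ({z | φ z = a} ∩ {z | η z = b})) := by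
  rw [H, Fintype.sum_prod_type_right]
  refine sum_congr rfl fun b _ => sum_congr rfl fun a _ => ?_
  congr 2
  ext z
  simp [pr]

lemma H_swap (φ : Ω → A) (η : Ω → B) : μ.H (pr φ η) = μ.H (pr η φ) := by
  rw [H_pr, H_pr, sum_comm]
  simp only [Set.inter_comm]

/-- conditional entropy as an average over atoms -/
lemma H_cond (φ : Ω → A) (η : Ω → B) :
    μ.H (pr φ η) - μ.H η = ∑ b, μ.P {z | η z = b} * (μ.cond {z | η z = b}).H φ := by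
  rw [H_pr, H, ← sum_sub_distrib]
  refine sum_congr rfl fun b _ => ?_
  rcases (μ.nn {z | η z = b}).eq_or_lt with h | h
  · have : ∀ a, μ.P ({z | φ z = a} ∩ {z | η z = b}) = 0 := fun a =>
      le_antisymm (h ▸ μ.mono Set.inter_subset_right) (μ.nn _)
    simp [this, ← h]
  · have e : ∀ a, μ.P ({z | φ z = a} ∩ {z | η z = b}) =
        μ.P {z | η z = b} * (μ.cond {z | η z = b}).P {z | φ z = a} := fun a => by
      rw [μ.cond_P h, mul_div_cancel₀ _ h.ne']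
    simp only [e, negMulLog_mul, sum_add_distrib, ← sum_mul, FA.sum_P, H, mul_sum]
    ring

lemma H_le_log (φ : Ω → A) (t : Finset A) {N : ℝ} (h1 : 1 ≤ N) (hN : #t ≤ N)
    (h : ∀ a ∉ t, μ.P {z | φ z = a} = 0) : μ.H φ ≤ log N := by
  have N0 : 0 < N := by linarith
  have e1 : μ.H φ = ∑ a ∈ t, negMulLog (μ.P {z | φ z = a}) :=
    (sum_subset (subset_univ t) fun a _ ha => by rw [h a ha, negMulLog_zero]).symm
  have e2 : ∑ a ∈ t, μ.P {z | φ z = a} = 1 := by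
    rw [← μ.sum_P φ]
    exact sum_subset (subset_univ t) fun a _ ha => h a ha
  have k : ∀ x : ℝ, 0 ≤ x → negMulLog x ≤ x * log N + (1 / N - x) := fun x hx => by
    rcases hx.eq_or_lt with rfl | hx
    · simp [N0.le]
    · have := log_le_sub_one_of_pos (show 0 < 1 / (x * N) by positivity)
      rw [one_div, log_inv, log_mul hx.ne' N0.ne'] at this
      have := mul_le_mul_of_nonneg_left this hx.le
      have e : x * ((x * N)⁻¹ - 1) = 1 / N - x := by field_simp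
      rw [negMulLog]
      linarith
  rw [e1]
  refine (sum_le_sum fun a _ => k _ (μ.nn _)).trans ?_
  rw [sum_add_distrib, ← sum_mul, sum_sub_distrib, e2, sum_const, nsmul_eq_mul]
  have : #t * (1 / N) ≤ 1 := by rw [mul_one_div, div_le_one N0]; exact hN
  linarith

/-- counting bound: given `η = b`, `φ` takes at most `N b` values -/
lemma H_count (φ : Ω → A) (η : Ω → B) (N : B → ℝ) (h1 : ∀ b, 1 ≤ N b)
    (h : ∀ b, ∃ t : Finset A, #t ≤ N b ∧ ∀ z, η z = b → φ z ∈ t) :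
    μ.H (pr φ η) - μ.H η ≤ ∑ b, μ.P {z | η z = b} * log (N b) := by
  rw [H_cond]
  refine sum_le_sum fun b _ => ?_
  rcases (μ.nn {z | η z = b}).eq_or_lt with h0 | h0
  · simp [← h0]
  · obtain ⟨t, t1, t2⟩ := h b
    refine mul_le_mul_of_nonneg_left (H_le_log _ φ t (h1 b) t1 fun a ha => ?_) h0.le
    rw [μ.cond_P h0, show {z | φ z = a} ∩ {z | η z = b} = ∅ from
      Set.eq_empty_of_forall_notMem fun z hz => ha (hz.1 ▸ t2 z hz.2), μ.empty, zero_div]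

lemma H_count' (φ : Ω → A) (η : Ω → B) {N : ℝ} (h1 : 1 ≤ N)
    (h : ∀ b, ∃ t : Finset A, #t ≤ N ∧ ∀ z, η z = b → φ z ∈ t) :
    μ.H (pr φ η) - μ.H η ≤ log N := by
  have := μ.H_count φ η (fun _ => N) (fun _ => h1) h
  rwa [← sum_mul, μ.sum_P, one_mul] at this

lemma H_le_card (φ : Ω → A) : μ.H φ ≤ log (Fintype.card A) := by
  rcases isEmpty_or_nonempty A with h | h
  · simp [H]
  · exact μ.H_le_log φ univ (by exact_mod_cast Fintype.card_pos) le_rfl (by simp)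

lemma H_le_pr (φ : Ω → A) (η : Ω → B) : μ.H η ≤ μ.H (pr φ η) := by
  have := μ.H_cond φ η
  have : 0 ≤ ∑ b, μ.P {z | η z = b} * (μ.cond {z | η z = b}).H φ :=
    sum_nonneg fun b _ => mul_nonneg (μ.nn _) (H_nonneg _ _)
  linarith

lemma H_det {φ : Ω → A} {χ : Ω → B} (h : Det φ χ) : μ.H χ ≤ μ.H φ := by
  have := μ.H_count' χ φ (N := 1) le_rfl fun a => by
    by_cases k : ∃ z, φ z = a
    · obtain ⟨z0, k⟩ := k
      exact ⟨{χ z0}, by simp, fun z hz => mem_singleton.2 (h _ _ (hz.trans k.symm))⟩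
    · exact ⟨∅, by simp, fun z hz => (k ⟨z, hz⟩).elim⟩
  have := μ.H_le_pr φ χ
  rw [μ.H_swap] at this
  rw [log_one] at *
  linarith

lemma H_eq {φ : Ω → A} {χ : Ω → B} (h : Det φ χ) (h' : Det χ φ) : μ.H φ = μ.H χ :=
  le_antisymm (μ.H_det h') (μ.H_det h)

lemma gibbs {x q : ℝ} (hx : 0 ≤ x) (hq : 0 ≤ q) (h : q = 0 → x = 0) :
    negMulLog x + x * log q ≤ q - x ∧ (negMulLog x + x * log q = q - x → x = q) := by
  rcases hx.eq_or_lt with rfl | hx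
  · simp [hq]
  · have q0 : 0 < q := hq.lt_of_ne fun e => hx.ne' (h e.symm)
    have e : negMulLog x + x * log q = x * log (q / x) := by
      rw [log_div q0.ne' hx.ne', negMulLog]; ring
    have e2 : q - x = x * (q / x - 1) := by field_simp
    rw [e, e2]
    refine ⟨mul_le_mul_of_nonneg_left (log_le_sub_one_of_pos (by positivity)) hx.le, fun k => ?_⟩
    by_contra ne
    have := log_lt_sub_one_of_pos (show 0 < q / x by positivity)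
      (fun c => ne ((div_eq_one_iff_eq hx.ne').1 c).symm)
    exact (mul_lt_mul_of_pos_left this hx).ne k

/-- subadditivity with its equality case -/
lemma H_pair (φ : Ω → A) (η : Ω → B) : μ.H (pr φ η) ≤ μ.H φ + μ.H η ∧
    (μ.H (pr φ η) = μ.H φ + μ.H η → ∀ a b, μ.P ({z | φ z = a} ∩ {z | η z = b}) =
      μ.P {z | φ z = a} * μ.P {z | η z = b}) := by
  set x : A → B → ℝ := fun a b => μ.P ({z | φ z = a} ∩ {z | η z = b}) with hx
  set f : A → ℝ := fun a => μ.P {z | φ z = a} with hf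
  set g : B → ℝ := fun b => μ.P {z | η z = b} with hg
  have xf : ∀ a b, x a b ≤ f a := fun a b => μ.mono Set.inter_subset_left
  have xg : ∀ a b, x a b ≤ g b := fun a b => μ.mono Set.inter_subset_right
  have x0 : ∀ a b, 0 ≤ x a b := fun a b => μ.nn _
  have s1 : ∀ b, ∑ a, x a b = g b := fun b => μ.sum_inter φ _
  have s2 : ∀ a, ∑ b, x a b = f a := fun a => by
    simp only [hx, Set.inter_comm {z | φ z = a}]
    exact μ.sum_inter η _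
  have G : ∀ a b, _ := fun a b => gibbs (x0 a b) (mul_nonneg (μ.nn _) (μ.nn _) : 0 ≤ f a * g b)
    fun e => le_antisymm (by
      rcases mul_eq_zero.1 e with e | e
      exacts [e ▸ xf a b, e ▸ xg a b]) (x0 a b)
  have L : ∀ a b, x a b * log (f a * g b) = x a b * log (f a) + x a b * log (g b) := fun a b => by
    rcases (x0 a b).eq_or_lt with e | e
    · simp [← e]
    · rw [log_mul (e.trans_le (xf a b)).ne' (e.trans_le (xg a b)).ne', mul_add]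
  have E : μ.H (pr φ η) - (μ.H φ + μ.H η) =
      ∑ b, ∑ a, (negMulLog (x a b) + x a b * log (f a * g b) - (f a * g b - x a b)) := by
    have a1 : ∑ b, ∑ a, x a b * log (f a) = -μ.H φ := by
      rw [sum_comm, H, ← sum_neg_distrib]
      exact sum_congr rfl fun a _ => by rw [← sum_mul, s2, negMulLog]; ring
    have a2 : ∑ b, ∑ a, x a b * log (g b) = -μ.H η := by
      rw [H, ← sum_neg_distrib]
      exact sum_congr rfl fun b _ => by rw [← sum_mul, s1, negMulLog]; ring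
    have a3 : ∑ a, f a = 1 := μ.sum_P φ
    simp only [L, sum_sub_distrib, sum_add_distrib, a1, a2]
    simp only [← sum_mul, a3, s1, one_mul]
    rw [H_pr]
    ring
  have np : ∀ b ∈ (univ : Finset B), ∀ a ∈ (univ : Finset A),
      negMulLog (x a b) + x a b * log (f a * g b) - (f a * g b - x a b) ≤ 0 :=
    fun b _ a _ => sub_nonpos.2 (G a b).1
  refine ⟨sub_nonpos.1 (E ▸ sum_nonpos fun b hb => sum_nonpos (np b hb)), fun k a b => ?_⟩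
  rw [k, sub_self] at E
  have := (sum_eq_zero_iff_of_nonpos fun b hb => sum_nonpos (np b hb)).1 E.symm b (mem_univ b)
  exact (G a b).2 (sub_eq_zero.1 ((sum_eq_zero_iff_of_nonpos (np b (mem_univ b))).1 this a
    (mem_univ a)))

/-- submodularity, partition form -/
lemma H_sub {α : Ω → A} {β : Ω → B} {δ : Ω → C} {ζ : Ω → D} (h1 : Det α ζ) (h2 : Det β ζ)
    (h3 : Det (pr α β) δ) : μ.H δ + μ.H ζ ≤ μ.H α + μ.H β := by
  have a := μ.H_cond (pr α β) ζ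
  have b := μ.H_cond α ζ
  have c := μ.H_cond β ζ
  have d : ∑ b, μ.P {z | ζ z = b} * (μ.cond {z | ζ z = b}).H (pr α β) ≤
      ∑ b, (μ.P {z | ζ z = b} * (μ.cond {z | ζ z = b}).H α +
        μ.P {z | ζ z = b} * (μ.cond {z | ζ z = b}).H β) := sum_le_sum fun b _ => by
    rw [← mul_add]
    exact mul_le_mul_of_nonneg_left (H_pair _ α β).1 (μ.nn _)
  rw [sum_add_distrib] at d
  have e1 := μ.H_det (show Det α (pr α ζ) from fun z z' e => pr_eq.2 ⟨e, h1 z z' e⟩)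
  have e2 := μ.H_det (show Det β (pr β ζ) from fun z z' e => pr_eq.2 ⟨e, h2 z z' e⟩)
  have e3 := μ.H_det (show Det (pr (pr α β) ζ) δ from fun z z' e => h3 z z' (pr_eq.1 e).1)
  linarith

/-- push-forward -/
def map {Ω' : Type} (f : Ω → Ω') : FA Ω' :=
  ⟨fun s => μ.P (f ⁻¹' s), fun _ => μ.nn _, μ.one, fun s t d => by
    rw [Set.preimage_union, μ.add _ _ (d.preimage f)]⟩

lemma map_H {Ω' : Type} (f : Ω → Ω') (φ : Ω' → A) :
    (μ.map f).H φ = μ.H (fun z => φ (f z)) := rfl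

/-- ultrafilter limit -/
lemma exists_lim (ν : ℕ → FA Ω) : ∃ μ : FA Ω,
    (∀ s, Filter.Tendsto (fun n => (ν n).P s) (Filter.hyperfilter ℕ) (nhds (μ.P s))) ∧
    ∀ (A : Type) [Fintype A] (φ : Ω → A),
      Filter.Tendsto (fun n => (ν n).H φ) (Filter.hyperfilter ℕ) (nhds (μ.H φ)) := by
  have k : ∀ s, ∃ x, Filter.Tendsto (fun n => (ν n).P s) (Filter.hyperfilter ℕ) (nhds x) :=
    fun s => by
      obtain ⟨x, -, hx⟩ := (isCompact_Icc (a := (0 : ℝ)) (b := 1)).ultrafilter_le_nhds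
        ((Filter.hyperfilter ℕ).map fun n => (ν n).P s)
        (Filter.le_principal_iff.2 (Filter.mem_map.2 (Filter.univ_mem' fun n =>
          ⟨(ν n).nn s, (ν n).le_one s⟩)))
      exact ⟨x, hx⟩
  choose P hP using k
  refine ⟨⟨P, fun s => ge_of_tendsto' (hP s) fun n => (ν n).nn s, tendsto_nhds_unique (hP _)
    (by simp only [FA.one]; exact tendsto_const_nhds), fun s t d => tendsto_nhds_unique (hP _)
    (by simp only [FA.add _ s t d]; exact (hP s).add (hP t))⟩, hP, fun A _ φ => ?_⟩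
  exact tendsto_finsetSum _ fun a _ => (continuous_negMulLog.tendsto _).comp (hP _)

end FA

/-- invariance under deleting the last digit -/
def Inv (p : ℕ) (μ : FA ℕ) : Prop := ∀ s : Set ℕ, μ.P {z | z / p ∈ s} = μ.P s

lemma Inv.H {p : ℕ} {μ : FA ℕ} (h : Inv p μ) [Fintype A] (φ : ℕ → A) (k : ℕ) :
    μ.H (fun z => φ (z / p ^ k)) = μ.H φ := by
  induction k with
  | zero => simp
  | succ k ih =>
    rw [← ih, FA.H, FA.H]
    refine sum_congr rfl fun a _ => ?_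
    rw [← h {z | φ (z / p ^ k) = a}]
    simp only [Set.mem_ofPred_eq, Nat.div_div_eq_div_mul, pow_succ']

/-- the `len` base-`p` digits of `z` in places `k, …, k+len-1` -/
def blk (p k len : ℕ) (z : ℕ) : ZMod (p ^ len) := ((z / p ^ k : ℕ) : ZMod (p ^ len))

/-- the value `V_k` of the block of `k` digits in places `o, …, o+k-1` (origin at place `o+k`) -/
def vv (p : ℕ) (ψ : ℕ → ℕ → ℤ) (o k : ℕ) (z : ℕ) : ZMod (p ^ k) :=
  ((ψ k (z / p ^ o) : ℤ) : ZMod (p ^ k))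

lemma blk_eq {p k len z z' : ℕ} :
    blk p k len z = blk p k len z' ↔ z / p ^ k ≡ z' / p ^ k [MOD p ^ len] :=
  ZMod.natCast_eq_natCast_iff _ _ _

lemma vv_eq {p : ℕ} {ψ : ℕ → ℕ → ℤ} {o k z z' : ℕ} : vv p ψ o k z = vv p ψ o k z' ↔
    ψ k (z / p ^ o) ≡ ψ k (z' / p ^ o) [ZMOD (p : ℤ) ^ k] := by
  rw [vv, vv, ZMod.intCast_eq_intCast_iff, Nat.cast_pow]

/-- what the entropy argument uses about `ψ n z = p^(n-1) (H_z - H_(p^n [z/p^n])) mod p^n` -/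
structure Good (p : ℕ) (ψ : ℕ → ℕ → ℤ) : Prop where
  loc : ∀ n z z', z ≡ z' [MOD p ^ (2 * n)] → ψ n z ≡ ψ n z' [ZMOD (p : ℤ) ^ n]
  con : ∀ n k z, ψ (n + k) z ≡ ψ n (z / p ^ k) [ZMOD (p : ℤ) ^ n]
  coc : ∀ n k z, ψ (n + k) z ≡ ψ (n + k) (p ^ k * (z / p ^ k)) + (p : ℤ) ^ n * ψ k z
    [ZMOD (p : ℤ) ^ (n + k)]
  sep : ∀ u m r w w', p * (u + m) ≤ u + r → w < p ^ (u + r) → w' < p ^ (u + r) →
    w / p ^ r ≠ w' / p ^ r → ∃ t : Finset ℕ, #t ≤ p ∧ ∀ x,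
      ψ (u + r) (p ^ (u + r) * x + w) ≡ ψ (u + r) (p ^ (u + r) * x + w') [ZMOD (p : ℤ) ^ (u + r)] →
      x % p ^ m ∈ t

section digits
variable {p : ℕ} {ψ : ℕ → ℕ → ℤ} {z z' : ℕ}

lemma blk_shift (p k len q z : ℕ) : blk p k len (z / p ^ q) = blk p (k + q) len z := by
  rw [blk, blk, Nat.div_div_eq_div_mul, ← pow_add, add_comm]

lemma vv_shift (p : ℕ) (ψ : ℕ → ℕ → ℤ) (o k q z : ℕ) :
    vv p ψ o k (z / p ^ q) = vv p ψ (o + q) k z := by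
  rw [vv, vv, Nat.div_div_eq_div_mul, ← pow_add, add_comm]

/-- a block determines its sub-blocks -/
lemma blk_sub {a x b y : ℕ} (h1 : a ≤ b) (h2 : b + y ≤ a + x)
    (h : blk p a x z = blk p a x z') : blk p b y z = blk p b y z' := by
  obtain ⟨d, rfl⟩ := Nat.exists_eq_add_of_le h1
  rw [blk_eq] at h ⊢
  have h3 := h.of_dvd (pow_dvd_pow p (show d + y ≤ x by omega))
  rw [pow_add, ← Nat.div_div_eq_div_mul, ← Nat.div_div_eq_div_mul, Nat.ModEq,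
    ← Nat.mod_mul_right_div_self (z / p ^ a), ← Nat.mod_mul_right_div_self (z' / p ^ a),
    ← pow_add, h3]

/-- two blocks without a gap determine every block inside their union -/
lemma blk_cat {a x b y c w : ℕ} (h0 : b ≤ a + x) (h1 : a ≤ c) (h2 : c + w ≤ b + y)
    (h : blk p a x z = blk p a x z') (h' : blk p b y z = blk p b y z') :
    blk p c w z = blk p c w z' := by
  by_cases k : c + w ≤ a + x
  · exact blk_sub h1 k h
  have h3 : blk p (a + x) (c + w - (a + x)) z = blk p (a + x) (c + w - (a + x)) z' :=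
    blk_sub h0 (by omega) h'
  refine blk_sub (x := x + (c + w - (a + x))) h1 (by omega) ?_
  rw [blk_eq] at h h3 ⊢
  rw [pow_add, ← Nat.div_div_eq_div_mul, ← Nat.div_div_eq_div_mul] at h3
  rw [pow_add, Nat.ModEq, Nat.mod_mul, Nat.mod_mul, h, h3]

lemma Good.vv_loc (G : Good p ψ) {o k : ℕ} (h : blk p o (2 * k) z = blk p o (2 * k) z') :
    vv p ψ o k z = vv p ψ o k z' := vv_eq.2 (G.loc _ _ _ (blk_eq.1 h))

lemma Good.vv_con (G : Good p ψ) {o n k : ℕ} (h : vv p ψ o (n + k) z = vv p ψ o (n + k) z') :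
    vv p ψ (o + k) n z = vv p ψ (o + k) n z' := by
  rw [vv_eq] at h ⊢
  rw [pow_add, ← Nat.div_div_eq_div_mul, ← Nat.div_div_eq_div_mul]
  exact (G.con n k _).symm.trans ((h.of_dvd (pow_dvd_pow _ (n.le_add_right k))).trans
    (G.con n k _))

/-- the block padded with zeros is read off `2 n + k` digits above place `o + k` -/
lemma Good.pad (G : Good p ψ) {o n k : ℕ}
    (h : blk p (o + k) (2 * n + k) z = blk p (o + k) (2 * n + k) z') :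
    ψ (n + k) (p ^ k * (z / p ^ o / p ^ k)) ≡ ψ (n + k) (p ^ k * (z' / p ^ o / p ^ k))
      [ZMOD (p : ℤ) ^ (n + k)] := by
  refine G.loc _ _ _ ?_
  rw [blk_eq, pow_add p o, ← Nat.div_div_eq_div_mul, ← Nat.div_div_eq_div_mul] at h
  rw [show 2 * (n + k) = k + (2 * n + k) by ring, pow_add]
  exact h.mul_left' _

lemma Good.vv_coc (G : Good p ψ) (hp : p ≠ 0) {o n k : ℕ}
    (h : blk p (o + k) (2 * n + k) z = blk p (o + k) (2 * n + k) z') :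
    vv p ψ o (n + k) z = vv p ψ o (n + k) z' ↔ vv p ψ o k z = vv p ψ o k z' := by
  have a := G.pad h
  have b := G.coc n k (z / p ^ o)
  have c := G.coc n k (z' / p ^ o)
  rw [vv_eq, vv_eq]
  refine ⟨fun e => ?_, fun e => b.trans ((a.add ?_).trans c.symm)⟩
  · have := a.add_left_cancel (b.symm.trans (e.trans c))
    rw [pow_add] at this
    exact Int.ModEq.mul_left_cancel' (pow_ne_zero _ (by exact_mod_cast hp)) this
  · rw [pow_add]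
    exact e.mul_left'
end digits

/-- size of a fibre -/
noncomputable def cnt (p : ℕ) (ψ : ℕ → ℕ → ℤ) (n x : ℕ) (ρ : ℤ) : ℕ :=
  #{w ∈ range (p ^ n) | ψ n (p ^ n * x + w) ≡ ρ [ZMOD (p : ℤ) ^ n]}

/-- largest fibre -/
noncomputable def NN (p : ℕ) (ψ : ℕ → ℕ → ℤ) (n : ℕ) : ℕ :=
  sSup (Set.range fun a : ℕ × ℤ => cnt p ψ n a.1 a.2)

lemma cnt_bdd (p : ℕ) (ψ : ℕ → ℕ → ℤ) (n : ℕ) :
    BddAbove (Set.range fun a : ℕ × ℤ => cnt p ψ n a.1 a.2) :=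
  ⟨p ^ n, by rintro _ ⟨a, rfl⟩; exact (card_filter_le _ _).trans (card_range _).le⟩

lemma cnt_le (p : ℕ) (ψ : ℕ → ℕ → ℤ) (n x : ℕ) (ρ : ℤ) : cnt p ψ n x ρ ≤ NN p ψ n :=
  le_csSup (cnt_bdd p ψ n) ⟨(x, ρ), rfl⟩

lemma NN_mem (p : ℕ) (ψ : ℕ → ℕ → ℤ) (n : ℕ) : ∃ x ρ, cnt p ψ n x ρ = NN p ψ n := by
  obtain ⟨a, h⟩ := Nat.sSup_mem (Set.range_nonempty _) (cnt_bdd p ψ n)
  exact ⟨a.1, a.2, h⟩

lemma NN_le (p : ℕ) (ψ : ℕ → ℕ → ℤ) (n : ℕ) : NN p ψ n ≤ p ^ n := by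
  obtain ⟨x, ρ, h⟩ := NN_mem p ψ n
  exact h ▸ (card_filter_le _ _).trans (card_range _).le

lemma NN_pos {p : ℕ} (hp : 0 < p) (ψ : ℕ → ℕ → ℤ) (n : ℕ) : 1 ≤ NN p ψ n :=
  le_trans (card_pos.2 ⟨0, mem_filter.2 ⟨mem_range.2 (pow_pos hp n), Int.ModEq.refl _⟩⟩)
    (cnt_le p ψ n 0 (ψ n (p ^ n * 0 + 0)))

instance nz (p : ℕ) [h : Fact p.Prime] (n : ℕ) : NeZero (p ^ n) := ⟨pow_ne_zero n h.out.ne_zero⟩

/-- the statement for one prime -/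
def Goal (p : ℕ) : Prop := ∀ ε : ℝ, 0 < ε → ∃ C : ℝ, ∀ (r : ℚ) (y x : ℕ), 1 ≤ x →
  (#{n ∈ Ico y (y + x) | (p : ℤ) ∣ (harmonic n - r).num} : ℝ) ≤ C * (x : ℝ) ^ ε

section
variable (p : ℕ) [Fact p.Prime] (ψ : ℕ → ℕ → ℤ) (μ : FA ℕ)

/-- entropy of `W` digits -/
noncomputable def Hb (W : ℕ) : ℝ := μ.H (blk p 0 W)

/-- `H(V_n | L past digits)` -/
noncomputable def FF (n L : ℕ) : ℝ := μ.H (pr (vv p ψ 0 n) (blk p n L)) - μ.H (blk p n L)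

/-- `H(V_k, y, B)`: origin at place `M`, `L` past digits, the lowest `r` digits -/
noncomputable def TT (M k r L : ℕ) : ℝ :=
  μ.H (pr (vv p ψ (M - k) k) (pr (blk p M L) (blk p 0 r)))

/-- `H(block of l digits at place o | L past digits, V_l)` -/
noncomputable def KK (o l L : ℕ) : ℝ :=
  μ.H (pr (blk p o l) (pr (blk p (o + l) L) (vv p ψ o l))) -
    μ.H (pr (blk p (o + l) L) (vv p ψ o l))

/-- step 6: `t`, `X`, `Y`, `Om` -/
def tt (n j l z : ℕ) : ℤ := ψ (n + l) (p ^ (j + l) * (z / p ^ (j + l)))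

def XX (n j l z : ℕ) : ZMod (p ^ l) := ((tt p ψ n j l z / (p : ℤ) ^ n : ℤ) : ZMod (p ^ l))

def YY (j l z : ℕ) : ZMod (p ^ l) := ((ψ (j + l) z / (p : ℤ) ^ j : ℤ) : ZMod (p ^ l))

def OO (n b j l L : ℕ) : ℕ → (ZMod (p ^ L) × ZMod (p ^ b)) × ZMod (p ^ n) × ZMod (p ^ j) :=
  pr (pr (blk p (n + l) L) (blk p (j + l) b))
    (pr (fun z => ((tt p ψ n j l z : ℤ) : ZMod (p ^ n))) (vv p ψ l j))

lemma Inv.Hb {μ : FA ℕ} (h : Inv p μ) (k W : ℕ) : μ.H (blk p k W) = Hb p μ W := by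
  rw [J77.Hb, ← h.H (blk p 0 W) k]
  simp only [blk_shift, zero_add]

/-- the stationary process -/
structure Proc (θ : ℝ) : Prop where
  good : Good p ψ
  inv : Inv p μ
  fib : ∀ l L, θ * l ≤ KK p ψ μ 0 l L
end

/-- reduction mod `p` of an element of `ZMod (p^l)` -/
def red (p l : ℕ) (x : ZMod (p ^ l)) : ZMod p := (x.val : ZMod p)

/-- conclusion of the gain lemma -/
def Gain (p : ℕ) [Fact p.Prime] (l : ℕ) (c d δ : ℝ) : Prop :=
  ∀ (Ω : Type) (μ : FA Ω) (X Y : Ω → ZMod (p ^ l)), c ≤ μ.H (fun z => red p l (X z)) →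
    μ.H Y ≤ l * log p - d → δ ≤ (μ.H X + μ.H Y - μ.H (pr X Y)) +
      (μ.H X + μ.H (fun z => X z + Y z) - μ.H (pr X Y))

/-! ### Rows -/

def PAD_s : Prop := ∀ (p : ℕ) [Fact p.Prime], ∃ ψ, Good p ψ ∧
  (∀ n k, NN p ψ (n + k) ≤ NN p ψ n * NN p ψ k) ∧
  ((∀ e : ℝ, 0 < e → ∃ M : ℕ, 1 ≤ M ∧ log (NN p ψ M) ≤ e * M) → Goal p)

/-- one position `r` of the uniform measure on a fibre -/
def POS_s : Prop := ∀ (p : ℕ) [Fact p.Prime] (ψ : ℕ → ℕ → ℤ), Good p ψ → ∀ T : ℕ,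
  ∃ (ν : ℕ → FA ℕ) (g : ℕ → ℝ), (∀ r s, (ν (r + 1)).P s = (ν r).P {z | z / p ∈ s}) ∧
    g 0 = log (NN p ψ T) ∧ (∀ r, 0 ≤ g r) ∧ (∀ r, T ≤ r → g r = 0) ∧
    (∀ r, g r ≤ g (r + 1) + log p) ∧
    (∀ r l L, r + l ≤ T → g r - g (r + l) ≤ KK p ψ (ν r) 0 l L)

/-- concavity of conditional entropy under finite mixtures -/
def MIX_s : Prop := ∀ (T : ℕ), 1 ≤ T → ∀ ν : ℕ → FA ℕ, ∃ μ : FA ℕ,
  (∀ s, μ.P s = (∑ r ∈ range T, (ν r).P s) / T) ∧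
  ∀ (A B : Type) [Fintype A] [Fintype B] (φ : ℕ → A) (η : ℕ → B),
    (∑ r ∈ range T, ((ν r).H (pr φ η) - (ν r).H η)) / T ≤ μ.H (pr φ η) - μ.H η

def PROC_s : Prop := ∀ (p : ℕ) [Fact p.Prime] (ψ : ℕ → ℕ → ℤ) (θ : ℝ), Good p ψ →
  (∀ T : ℕ, θ * T ≤ log (NN p ψ T)) → ∃ μ, Proc p ψ μ θ

def CAP_s : Prop := ∀ (p : ℕ) [Fact p.Prime] (ψ : ℕ → ℕ → ℤ), Good p ψ →
  ∀ (ν : FA ℕ) (o l L : ℕ), l ≤ L → KK p ψ ν o l L ≤ log (NN p ψ l)

def GAIN_s : Prop := ∀ (p : ℕ) [Fact p.Prime] (l : ℕ) (c d : ℝ), 1 ≤ l → 0 < c → 0 < d →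
  ∃ δ, 0 < δ ∧ Gain p l c d δ

/-- step 6 over the atoms of `O`; `Φ` is the fine partition, `K` the block -/
def AVG_s : Prop := ∀ (p : ℕ) [Fact p.Prime] (l : ℕ) (c d δ N : ℝ), 0 < c → 0 < d → 0 < δ →
  Gain p l (c / 2) (d / 2) δ → d ≤ N →
  ∀ (Ω A B : Type) [Fintype A] [Fintype B] (μ : FA Ω) (O : Ω → A) (Φ : Ω → B)
    (X Y K : Ω → ZMod (p ^ l)), Det Φ O →
    (∀ ν : FA Ω, ν.H (pr K (pr Φ Y)) - ν.H (pr Φ Y) ≤ N) → Det (pr Φ K) Y →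
    c ≤ μ.H (pr (fun z => red p l (X z)) O) - μ.H O →
    δ * (c / (2 * log p) - 2 * ((N - (μ.H (pr K (pr Φ Y)) - μ.H (pr Φ Y))) +
        ((μ.H (pr Y O) - μ.H O) - (μ.H (pr Y Φ) - μ.H Φ))) / d) ≤
      (μ.H (pr X O) + μ.H (pr Y O) - μ.H (pr (pr X Y) O) - μ.H O) +
      (μ.H (pr X O) + μ.H (pr (fun z => X z + Y z) O) - μ.H (pr (pr X Y) O) - μ.H O)

def SEQ_s : Prop := ∀ (p : ℕ) [Fact p.Prime] (ψ : ℕ → ℕ → ℤ) (μ : FA ℕ) (θ : ℝ), Proc p ψ μ θ →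
  Hb p μ 0 = 0 ∧
  (∀ k, Hb p μ (k + 2) - Hb p μ (k + 1) ≤ Hb p μ (k + 1) - Hb p μ k) ∧
  (∀ k, θ ≤ Hb p μ (k + 1) - Hb p μ k) ∧ (∀ k, Hb p μ (k + 1) - Hb p μ k ≤ log p) ∧
  (∀ L, FF p ψ μ 0 L = 0) ∧ (∀ n L, FF p ψ μ n (L + 1) ≤ FF p ψ μ n L) ∧
  (∀ n L, FF p ψ μ n L ≤ FF p ψ μ (n + 1) L) ∧
  (∀ n L, FF p ψ μ (n + 1) L ≤ FF p ψ μ n L + log p)

def MON_s : Prop := ∀ (p : ℕ) [Fact p.Prime] (ψ : ℕ → ℕ → ℤ) (μ : FA ℕ) (θ : ℝ), Proc p ψ μ θ →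
  ∀ j k l L, j + k + l ≤ L →
    FF p ψ μ (j + l) (L + k) - FF p ψ μ j (L + k) ≤ FF p ψ μ (j + k + l) L - FF p ψ μ (j + k) L

/-- 5a, and the two facts on consecutive `TT` -/
def XA_s : Prop := ∀ (p : ℕ) [Fact p.Prime] (ψ : ℕ → ℕ → ℤ) (μ : FA ℕ) (θ : ℝ), Proc p ψ μ θ →
  (∀ u r L, u ≤ L → TT p ψ μ (u + r) u r L ≤ Hb p μ (L + u) - θ * u + Hb p μ r) ∧
  (∀ M k r L, k + 1 ≤ M → TT p ψ μ M (k + 1) r L - TT p ψ μ M k r L ≤ log p) ∧
  (∀ M k r q L, k + 1 ≤ M → TT p ψ μ (M + q) (k + 1) (r + q) L - TT p ψ μ (M + q) k (r + q) L ≤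
    TT p ψ μ M (k + 1) r L - TT p ψ μ M k r L)

/-- 5b -/
def XB_s : Prop := ∀ (p : ℕ) [Fact p.Prime] (ψ : ℕ → ℕ → ℤ) (μ : FA ℕ) (θ : ℝ), Proc p ψ μ θ →
  ∀ u m r L, p * (u + m) ≤ u + r → u + r ≤ L → ∃ e : ℝ, 0 ≤ e ∧ e ≤ 1 ∧
    Hb p μ (u + r + m) - Hb p μ (u + r) ≤ log 2 + (u + 1) * log p + (1 - e) * m * log p ∧
    Hb p μ (L + (u + r)) - TT p ψ μ (u + r) (u + r) r L ≤ log 2 + e * log (NN p ψ u)

def I1_s : Prop := ∀ (p : ℕ) [Fact p.Prime] (ψ : ℕ → ℕ → ℤ) (μ : FA ℕ) (θ : ℝ), Proc p ψ μ θ →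
  ∀ u b j l L n : ℕ, n = u + b + j → j + l ≤ b → n + l ≤ L →
    μ.H (pr (fun z => XX p ψ n j l z + YY p ψ j l z) (OO p ψ n b j l L)) - μ.H (OO p ψ n b j l L) ≤
      FF p ψ μ (n + l) L - FF p ψ μ n L ∧
    FF p ψ μ (j + l) (L + u + b) - FF p ψ μ j (L + u + b) ≤
      μ.H (pr (YY p ψ j l) (OO p ψ n b j l L)) - μ.H (OO p ψ n b j l L)

def I2_s : Prop := ∀ (p : ℕ) [Fact p.Prime] (ψ : ℕ → ℕ → ℤ) (μ : FA ℕ) (θ : ℝ), Proc p ψ μ θ →
  ∀ u b j l L n : ℕ, n = u + b + j → j + l ≤ b → n + l ≤ L →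
    μ.H (pr (XX p ψ n j l) (OO p ψ n b j l L)) + μ.H (pr (YY p ψ j l) (OO p ψ n b j l L)) -
      μ.H (pr (pr (XX p ψ n j l) (YY p ψ j l)) (OO p ψ n b j l L)) - μ.H (OO p ψ n b j l L) ≤
    (Hb p μ (b + j + l) - Hb p μ b) - (Hb p μ (L + u + b + j + l) - Hb p μ (L + u + b))

def I3_s : Prop := ∀ (p : ℕ) [Fact p.Prime] (ψ : ℕ → ℕ → ℤ) (μ : FA ℕ), Good p ψ →
  ∀ u b j l L n : ℕ, n = u + b + j → j + l ≤ b → n + l ≤ L → 1 ≤ l →
    TT p ψ μ (n + l) (n + 1) (b + j + l) L - TT p ψ μ (n + l) n (b + j + l) L ≤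
      μ.H (pr (fun z => red p l (XX p ψ n j l z)) (OO p ψ n b j l L)) - μ.H (OO p ψ n b j l L)

def I4_s : Prop := ∀ (p : ℕ) [Fact p.Prime] (ψ : ℕ → ℕ → ℤ), Good p ψ →
  ∀ u b j l L n : ℕ, n = u + b + j → j + l ≤ b → n + l ≤ L →
    Det (blk p l (L + n)) (OO p ψ n b j l L) ∧
    Det (pr (blk p l (L + n)) (blk p 0 l)) (YY p ψ j l) ∧
    Det (pr (blk p l (L + n)) (YY p ψ j l)) (vv p ψ 0 l) ∧
    Det (pr (blk p l (L + n)) (vv p ψ 0 l)) (YY p ψ j l)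

/-- the inequality of step 6 for real sequences -/
def Inc (lp θ δ c : ℝ) (lg Hb : ℕ → ℝ) (F : ℕ → ℕ → ℝ) (T : ℕ → ℕ → ℕ → ℕ → ℝ) (l : ℕ) : Prop :=
  ∀ u b j L n : ℕ, n = u + b + j → j + l ≤ b → n + l ≤ L →
    c ≤ T (n + l) (n + 1) (b + j + l) L - T (n + l) n (b + j + l) L →
    ∀ i U Lo : ℝ, i = (Hb (b + j + l) - Hb b) - (Hb (L + u + b + j + l) - Hb (L + u + b)) →
      U = F (n + l) L - F n L → Lo = F (j + l) (L + u + b) - F j (L + u + b) →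
      δ * (c / (2 * lp) - 2 * (U + i - F l (L + n) + lg l - θ * l) / (θ * l)) ≤ U - Lo + 2 * i

def INC_s : Prop := ∀ (p : ℕ) [Fact p.Prime] (ψ : ℕ → ℕ → ℤ) (μ : FA ℕ) (θ : ℝ), Proc p ψ μ θ →
  0 < θ → ∀ (l : ℕ) (c δ : ℝ), 1 ≤ l → 0 < c → 0 < δ → Gain p l (c / 2) (θ * l / 2) δ →
    Inc (log p) θ δ c (fun n => log (NN p ψ n)) (Hb p μ) (FF p ψ μ) (TT p ψ μ) l

/-- 5c, real arithmetic: an entropic place far from both ends -/
def ENT_s : Prop := ∀ (p : ℕ) (lp θ : ℝ) (lg Hb : ℕ → ℝ) (T : ℕ → ℕ → ℕ → ℕ → ℝ),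
  2 ≤ p → 0 < lp → 0 < θ → (∀ e, 0 < e → ∃ l0 : ℕ, ∀ l, l0 ≤ l → lg l ≤ (θ + e) * l) →
  Hb 0 = 0 → (∀ k, Hb (k + 2) - Hb (k + 1) ≤ Hb (k + 1) - Hb k) →
  (∀ k, θ ≤ Hb (k + 1) - Hb k) → (∀ k, Hb (k + 1) - Hb k ≤ lp) →
  (∀ u r L, u ≤ L → T (u + r) u r L ≤ Hb (L + u) - θ * u + Hb r) →
  (∀ M k r L, k + 1 ≤ M → T M (k + 1) r L - T M k r L ≤ lp) →
  (∀ M k r q L, k + 1 ≤ M → T (M + q) (k + 1) (r + q) L - T (M + q) k (r + q) L ≤
    T M (k + 1) r L - T M k r L) →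
  (∀ u m r L, p * (u + m) ≤ u + r → u + r ≤ L → ∃ e : ℝ, 0 ≤ e ∧ e ≤ 1 ∧
    Hb (u + r + m) - Hb (u + r) ≤ log 2 + (u + 1) * lp + (1 - e) * m * lp ∧
    Hb (L + (u + r)) - T (u + r) (u + r) r L ≤ log 2 + e * lg u) →
  ∃ c, 0 < c ∧ ∀ s j l : ℕ, 1 ≤ l → ∃ M : ℕ, ∀ L, M ≤ L → ∃ u b n : ℕ, n = u + b + j ∧ s ≤ b ∧
    n + l ≤ M ∧ c ≤ T (n + l) (n + 1) (b + j + l) L - T (n + l) n (b + j + l) L

/-- step 6, real arithmetic -/
def END_s : Prop := ∀ (lp θ c : ℝ) (lg Hb : ℕ → ℝ) (F : ℕ → ℕ → ℝ) (T : ℕ → ℕ → ℕ → ℕ → ℝ),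
  0 < lp → 0 < θ → 0 < c → (∀ e, 0 < e → ∃ l0 : ℕ, ∀ l, l0 ≤ l → lg l ≤ (θ + e) * l) →
  (∀ k, Hb (k + 2) - Hb (k + 1) ≤ Hb (k + 1) - Hb k) → (∀ k, θ ≤ Hb (k + 1) - Hb k) →
  (∀ L, F 0 L = 0) → (∀ n L, F n (L + 1) ≤ F n L) → (∀ n L, F n L ≤ F (n + 1) L) →
  (∀ n L, F (n + 1) L ≤ F n L + lp) →
  (∀ j k l L, j + k + l ≤ L → F (j + l) (L + k) - F j (L + k) ≤ F (j + k + l) L - F (j + k) L) →
  (∀ l : ℕ, 1 ≤ l → ∃ δ, 0 < δ ∧ Inc lp θ δ c lg Hb F T l) →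
  (∀ s j l : ℕ, 1 ≤ l → ∃ M : ℕ, ∀ L, M ≤ L → ∃ u b n : ℕ, n = u + b + j ∧ s ≤ b ∧
    n + l ≤ M ∧ c ≤ T (n + l) (n + 1) (b + j + l) L - T (n + l) n (b + j + l) L) → False

end Pool.Agent.MP_7915da_nt.J77
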