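import Pool.Agent.MP_7915da_nt.J77.Defs

namespace Pool.Agent.MP_7915da_nt.J77
open Finset Real
open scoped Classical

namespace ENDx

lemma lin (f : ℕ → ℝ) (x : ℝ) (a n : ℕ) (h : ∀ k, a ≤ k → f (k + 1) - f k ≤ x) :
    f (a + n) - f a ≤ n * x := by
  induction n with
  | zero => simp
  | succ n ih =>
    have h2 := h (a + n) (by omega)
    rw [← add_assoc, Nat.cast_succ]
    linarith only [ih, h2]

/-- a decreasing sequence bounded below: its limit -/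
lemma lim (f : ℕ → ℝ) (b : ℝ) (h1 : ∀ k, f (k + 1) ≤ f k) (h2 : ∀ k, b ≤ f k) :
    ∃ g, b ≤ g ∧ (∀ k, g ≤ f k) ∧ ∀ e, 0 < e → ∃ s, ∀ k, s ≤ k → f k ≤ g + e := by
  refine ⟨⨅ k, f k, le_ciInf h2, ciInf_le ⟨b, by rintro _ ⟨k, rfl⟩; exact h2 k⟩, fun e he => ?_⟩
  obtain ⟨s, hs⟩ := exists_lt_of_ciInf_lt (lt_add_of_pos_right (⨅ k, f k) he)
  exact ⟨s, fun k hk => (antitone_nat_of_succ_le h1 hk).trans hs.le⟩

end ENDx

theorem END : END_s := by
  intro lp θ c lg Hb F T l0 t0 c0 hlg H1 H2 F0 F1 F2 F3 hM hI hE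
  have Fn : ∀ n L, 0 ≤ F n L := fun n L => by
    induction n with
    | zero => exact (F0 L).ge
    | succ n ih => exact ih.trans (F2 n L)
  choose G G0 G1 G2 using fun n => ENDx.lim (F n) 0 (F1 n) (Fn n)
  have G3 : ∀ e, 0 < e → ∀ M : ℕ, ∃ s, ∀ L, s ≤ L → ∀ n, n ≤ M → F n L ≤ G n + e := fun e he M => by
    choose s hs using fun n => G2 n e he
    exact ⟨(range (M + 1)).sup s, fun L hL n hn =>
      hs n L ((le_sup (f := s) (mem_range.2 (by omega))).trans hL)⟩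
  have a1 : ∀ k, G (k + 1) - G (k + 1 + 1) ≤ G k - G (k + 1) := fun k =>
    le_of_forall_pos_le_add fun e he => by
      obtain ⟨s, hs⟩ := G3 (e / 2) (half_pos he) (k + 1 + 1)
      linarith only [hM k 1 1 (s + k + 2) (by omega), hs (s + k + 2 + 1) (by omega) k (by omega),
        hs (s + k + 2) (by omega) (k + 1 + 1) le_rfl, G1 (k + 1) (s + k + 2 + 1),
        G1 (k + 1) (s + k + 2)]
  have a2 : ∀ k, -lp ≤ G k - G (k + 1) := fun k => le_of_forall_pos_le_add fun e he => by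
    obtain ⟨s, hs⟩ := G2 k e he
    linarith only [hs s le_rfl, F3 k s, G1 (k + 1) s]
  obtain ⟨al, -, b1, b2⟩ := ENDx.lim (fun k => G k - G (k + 1)) (-lp) a1 a2
  obtain ⟨h, -, d1, d2⟩ := ENDx.lim (fun k => Hb (k + 1) - Hb k) θ H1 H2
  obtain ⟨γ, g0, hγ⟩ : ∃ γ : ℝ, 0 < γ ∧ c / (2 * lp) = 16 * γ :=
    ⟨c / (32 * lp), by positivity, by field_simp; norm_num⟩
  have e0 : 0 < θ * γ := mul_pos t0 g0
  obtain ⟨j1, hj1⟩ := b2 (θ * γ / 2) (half_pos e0)
  obtain ⟨l1, hl1⟩ := hlg (θ * γ) e0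
  obtain ⟨N, hN⟩ := exists_nat_ge (j1 * -al / (θ * γ / 2))
  obtain ⟨l, hl⟩ : ∃ l, l = j1 + (N + l1 + 1) := ⟨_, rfl⟩
  have l2 : (1 : ℝ) ≤ l := by exact_mod_cast (by omega)
  have l3 : (0 : ℝ) < l := one_pos.trans_le l2
  have Gl : (-al - θ * γ) * l ≤ G l := by
    have p1 := ENDx.lin (fun k => -G k) (al + θ * γ / 2) j1 (N + l1 + 1) fun k hk => by
      linarith only [hj1 k hk]
    have p2 : j1 * -al ≤ l * (θ * γ / 2) :=
      (div_le_iff₀ (half_pos e0)).1 (hN.trans (by exact_mod_cast (by omega)))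
    have p3 : ((N + l1 + 1 : ℕ) : ℝ) = l - j1 := by rw [hl, Nat.cast_add j1]; ring
    rw [← hl, p3] at p1
    linarith only [p1, p2, G0 j1, mul_nonneg (Nat.cast_nonneg (α := ℝ) j1) e0.le]
  obtain ⟨δ, δ0, hδ⟩ := hI l (by omega)
  obtain ⟨η, η0, η1, η2⟩ : ∃ η : ℝ, 0 < η ∧ η ≤ δ * γ ∧ η ≤ θ * γ / 2 :=
    ⟨min _ _, lt_min (mul_pos δ0 g0) (half_pos e0), min_le_left _ _, min_le_right _ _⟩
  obtain ⟨j, hj⟩ := b2 (η / l) (div_pos η0 l3)
  have j0 : (0 : ℝ) < (j + l : ℕ) := by exact_mod_cast (by omega)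
  obtain ⟨s, hs⟩ := d2 (η / (j + l : ℕ)) (div_pos η0 j0)
  obtain ⟨M, hT⟩ := hE (s + j + l) j l (by omega)
  obtain ⟨L0, hL⟩ := G3 η η0 M
  obtain ⟨u, b, n, hn, hb, hn', hc⟩ := hT (M + L0) (by omega)
  generalize hLL : M + L0 = L at hc
  have key := hδ u b j L n hn (by omega) (by omega) hc _ _ _ rfl rfl rfl
  have i1 := ENDx.lin (fun k => Hb k - Hb (L + u + k)) (η / (j + l : ℕ)) b (j + l) fun k hk => by
    rw [← add_assoc]
    linarith only [hs k (by omega), d1 (L + u + k)]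
  rw [mul_div_cancel₀ _ j0.ne'] at i1
  simp only [← add_assoc] at i1
  have u1 := ENDx.lin G (-al) n l fun k _ => by linarith only [b1 k]
  have u2 := ENDx.lin (fun k => -G k) (al + η / l) j l fun k hk => by linarith only [hj k hk]
  rw [mul_add, mul_div_cancel₀ _ l3.ne'] at u2
  have u3 := hL L (by omega) (n + l) hn'
  have u4 := hL (L + u + b) (by omega) j (by omega)
  have u5 := G1 n L
  have u6 := G1 (j + l) (L + u + b)
  have u7 := G1 l (L + n)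
  have u8 := hl1 l (by omega)
  have u9 := mul_le_mul_of_nonneg_left l2 e0.le
  have v1 : 2 * (F (n + l) L - F n L +
      (Hb (b + j + l) - Hb b - (Hb (L + u + b + j + l) - Hb (L + u + b))) - F l (L + n) + lg l -
      θ * l) / (θ * l) ≤ 6 * γ :=
    (div_le_iff₀ (mul_pos t0 l3)).2 (by linarith only [i1, u1, u3, u5, u7, u8, u9, Gl, η2])
  have v2 := mul_le_mul_of_nonneg_left (sub_le_sub_left v1 (c / (2 * lp))) δ0.le
  rw [hγ] at v2 key
  linarith only [v2, key, i1, u1, u2, u3, u4, u5, u6, η0, η1]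

end Pool.Agent.MP_7915da_nt.J77
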