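import Pool.Agent.MP_7915da_nt.J77.Defs

namespace Pool.Agent.MP_7915da_nt.J77
open Finset Real
open scoped Classical

namespace ENTx

lemma lin (f : ℕ → ℝ) (x : ℝ) (a n : ℕ) (h : ∀ k, a ≤ k → k < a + n → f (k + 1) - f k ≤ x) :
    f (a + n) - f a ≤ n * x := by
  induction n with
  | zero => simp
  | succ n ih =>
    have h1 := ih fun k h1 h2 => h k h1 (by omega)
    have h2 := h (a + n) (by omega) (by omega)
    rw [← add_assoc, Nat.cast_succ]
    linarith only [h1, h2]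

end ENTx

theorem ENT : ENT_s := by
  intro p lp θ lg Hb T hp l0 t0 hlg H0 H1 H2 H3 A1 A2 A3 B
  obtain ⟨m0, hm0⟩ := exists_nat_ge (4 * lp / θ)
  rw [div_le_iff₀ t0] at hm0
  have h2p : 2 * (1 + m0) ≤ p * (1 + m0) := Nat.mul_le_mul_right _ hp
  obtain ⟨C, hC⟩ : ∃ C, p * (1 + m0) = C + 1 := ⟨p * (1 + m0) - 1, by omega⟩
  have C1 : 1 ≤ C := by omega
  have C0 : (0 : ℝ) < C := by exact_mod_cast C1
  obtain ⟨κ, k0, hκ⟩ : ∃ κ : ℝ, 0 < κ ∧ κ * (8 * lp) = θ ^ 2 :=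
    ⟨θ ^ 2 / (8 * lp), by positivity, div_mul_cancel₀ _ (by positivity)⟩
  obtain ⟨c, c0, hc⟩ : ∃ c : ℝ, 0 < c ∧ c * C = κ :=
    ⟨κ / C, by positivity, div_mul_cancel₀ _ C0.ne'⟩
  have anti : Antitone fun k => Hb (k + 1) - Hb k := antitone_nat_of_succ_le H1
  have bd : BddBelow (Set.range fun k => Hb (k + 1) - Hb k) :=
    ⟨θ, by rintro _ ⟨k, rfl⟩; exact H2 k⟩
  obtain ⟨s0, hs0⟩ := exists_lt_of_ciInf_lt (lt_add_of_pos_right (⨅ k, Hb (k + 1) - Hb k) c0)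
  have hD : ∀ k k', s0 ≤ k → Hb (k + 1) - Hb k ≤ Hb (k' + 1) - Hb k' + c := fun k k' h =>
    (anti h).trans (hs0.le.trans (add_le_add (ciInf_le bd k') le_rfl))
  obtain ⟨l1, hl1⟩ := hlg κ k0
  refine ⟨c, c0, fun s j l hl => ?_⟩
  obtain ⟨N1, hN1⟩ := exists_nat_ge ((log 2 + lp) / lp)
  obtain ⟨N2, hN2⟩ := exists_nat_gt ((((s0 : ℝ) + (s + j : ℕ) + l) * lp + log 2) / κ)
  obtain ⟨u, hu⟩ : ∃ u, u = N1 + N2 + l1 + s0 + s + j + l := ⟨_, rfl⟩
  have u1 : log 2 + lp ≤ u * lp := (div_le_iff₀ l0).1 (hN1.trans (by exact_mod_cast (by omega)))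
  have u2 : ((s0 : ℝ) + (s + j : ℕ) + l) * lp + log 2 < u * κ :=
    (div_lt_iff₀ k0).1 (hN2.trans_le (by exact_mod_cast (by omega)))
  have u0 : (0 : ℝ) < u := by exact_mod_cast (by omega)
  obtain ⟨r, hr⟩ : ∃ r, r = C * u := ⟨_, rfl⟩
  have ru : u ≤ r := hr ▸ Nat.le_mul_of_pos_left u C1
  have rc : (r : ℝ) * c = u * κ := by rw [hr, ← hc, Nat.cast_mul]; ring
  refine ⟨u + r, fun L hL => ?_⟩
  by_contra hn
  push Not at hn
  obtain ⟨e, e0, e1, b1, b2⟩ := B u (m0 * u) r L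
    (le_of_eq (by rw [hr, ← one_add_mul, ← one_add_mul, ← mul_assoc, hC, add_comm])) hL
  have a1 := A1 u r L (by omega)
  have f1 := ENTx.lin (fun k => -Hb k) (-θ) (u + r) (m0 * u) fun k _ _ => by
    linarith only [H2 k]
  obtain ⟨r1, hr1⟩ : ∃ r1, r = s0 + r1 := ⟨r - s0, by omega⟩
  obtain ⟨w, hw⟩ : ∃ w, r = s + j + w + l := ⟨r - (s + j + l), by omega⟩
  have g1 := ENTx.lin (fun k => Hb k - Hb (L + u + k)) lp 0 s0 fun k _ _ => by
    rw [← add_assoc]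
    linarith only [H3 k, H2 (L + u + k), t0]
  have g2 := ENTx.lin (fun k => Hb k - Hb (L + u + k)) c s0 r1 fun k h _ => by
    rw [← add_assoc]
    linarith only [hD k (L + u + k) h]
  have t1 := ENTx.lin (fun k => T (u + r) k r L) lp u (s + j) fun k _ _ => A2 _ _ _ _ (by omega)
  have t2 := ENTx.lin (fun k => T (u + r) k r L) c (u + (s + j)) w fun k h1 h2 => by
    obtain ⟨b, rfl⟩ : ∃ b, k = u + b + j := ⟨k - u - j, by omega⟩
    obtain ⟨q, hq⟩ : ∃ q, r = b + j + l + q := ⟨r - (b + j + l), by omega⟩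
    have := A3 (u + b + j + l) (u + b + j) (b + j + l) q L (by omega)
    rw [← hq, show u + b + j + l + q = u + r by omega] at this
    exact this.trans (hn u b _ rfl (by omega) (by omega)).le
  have t3 := ENTx.lin (fun k => T (u + r) k r L) lp (u + (s + j) + w) l fun k _ _ =>
    A2 _ _ _ _ (by omega)
  rw [show u + (s + j) + w + l = u + r by omega] at t3
  rw [← hr1, add_assoc L] at g2
  rw [zero_add, add_zero, H0] at g1
  have w1 : (r1 : ℝ) * c ≤ r * c :=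
    mul_le_mul_of_nonneg_right (by exact_mod_cast (by omega)) c0.le
  have w2 : (w : ℝ) * c ≤ r * c :=
    mul_le_mul_of_nonneg_right (by exact_mod_cast (by omega)) c0.le
  rw [Nat.cast_mul] at f1 b1
  have m1 := mul_le_mul_of_nonneg_right hm0 u0.le
  have m2 : (0 : ℝ) < m0 * u := pos_of_mul_pos_right
    (show 0 < θ * ((m0 : ℝ) * u) by linarith only [m1, mul_pos l0 u0]) t0.le
  have m3 : θ / 2 ≤ (1 - e) * lp :=
    le_of_mul_le_mul_right (by linarith only [f1, b1, m1, u1]) m2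
  have m4 : 4 * κ ≤ (1 - e) * θ :=
    le_of_mul_le_mul_right (by linarith only [mul_le_mul_of_nonneg_right m3 t0.le, hκ]) l0
  have m5 := mul_le_mul_of_nonneg_left (hl1 u (by omega)) e0
  have m6 := mul_le_mul_of_nonneg_right m4 u0.le
  have m7 := mul_le_mul_of_nonneg_right e1 (mul_pos k0 u0).le
  linarith only [a1, b2, g1, g2, t1, t2, t3, w1, w2, rc, m5, m6, m7, u2]

end Pool.Agent.MP_7915da_nt.J77
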