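import Pool.Agent.MP_7915da_nt.J77.Defs

namespace Pool.Agent.MP_7915da_nt.J77
open Finset Real
open scoped Classical

namespace GAINx

lemma two_atoms {Ω A : Type} [Fintype A] (μ : FA Ω) (φ : Ω → A) (h : 0 < μ.H φ) :
    ∃ r r', r ≠ r' ∧ 0 < μ.P {z | φ z = r} ∧ 0 < μ.P {z | φ z = r'} := by
  by_contra n
  have k : ∃ r, 0 < μ.P {z | φ z = r} := by
    by_contra m
    have : ∑ a, μ.P {z | φ z = a} ≤ 0 := sum_nonpos fun a _ => not_lt.1 fun e => m ⟨a, e⟩
    rw [μ.sum_P] at this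
    linarith
  obtain ⟨r, hr⟩ := k
  have := μ.H_le_log φ {r} (N := 1) le_rfl (by simp) fun a ha =>
    le_antisymm (not_lt.1 fun e => n ⟨r, a, fun c => ha (mem_singleton.2 c.symm), hr, e⟩) (μ.nn _)
  rw [log_one] at this
  linarith

lemma lift_atom {Ω A B : Type} [Fintype A] (μ : FA Ω) (φ : Ω → A) (f : A → B) (r : B)
    (h : 0 < μ.P {z | f (φ z) = r}) : ∃ a, f a = r ∧ 0 < μ.P {z | φ z = a} := by
  rw [← μ.sum_inter φ] at h
  obtain ⟨a, -, ha⟩ := exists_lt_of_sum_lt (f := fun _ => (0 : ℝ)) (by simpa using h)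
  refine ⟨a, ?_, ha.trans_le (μ.mono Set.inter_subset_left)⟩
  by_contra n
  rw [show {z | φ z = a} ∩ {z | f (φ z) = r} = ∅ from
    Set.eq_empty_of_forall_notMem fun z hz => n (hz.1 ▸ hz.2), μ.empty] at ha
  exact lt_irrefl _ ha

lemma unit_sub (p : ℕ) [hp : Fact p.Prime] {l : ℕ} (hl : 1 ≤ l) {a a' : ZMod (p ^ l)}
    (h : red p l a ≠ red p l a') : IsUnit (a - a') := by
  have e : ∀ x : ZMod (p ^ l), red p l x =
      ZMod.castHom (dvd_pow_self p (by omega : l ≠ 0)) (ZMod p) x := fun x => by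
    rw [ZMod.castHom_apply, red, ZMod.natCast_val]
  have h1 : red p l (a - a') ≠ 0 := by
    rw [e, map_sub, ← e, ← e]
    exact sub_ne_zero.2 h
  rw [← ZMod.natCast_zmod_val (a - a'), ZMod.isUnit_iff_coprime]
  refine Nat.Coprime.pow_right _ ((Nat.Prime.coprime_iff_not_dvd hp.out).2 fun c => h1 ?_).symm
  exact (ZMod.natCast_eq_zero_iff _ _).2 c

lemma rigid (p : ℕ) [hp : Fact p.Prime] {l : ℕ} (hl : 1 ≤ l) {Ω : Type} (μ : FA Ω)
    (X Y : Ω → ZMod (p ^ l)) (h0 : 0 < μ.H (fun z => red p l (X z)))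
    (h1 : μ.H (pr X Y) = μ.H X + μ.H Y)
    (h2 : μ.H (pr X fun z => X z + Y z) = μ.H X + μ.H fun z => X z + Y z) :
    μ.H Y = l * log p := by
  obtain ⟨r, r', hr, k, k'⟩ := two_atoms μ _ h0
  obtain ⟨a, rfl, ha⟩ := lift_atom μ X (red p l) r k
  obtain ⟨a', rfl, ha'⟩ := lift_atom μ X (red p l) r' k'
  have key : ∀ x b, 0 < μ.P {z | X z = x} →
      μ.P {z | Y z = b} = μ.P {z | X z + Y z = x + b} := fun x b hx => by
    have e1 := (μ.H_pair X Y).2 h1 x b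
    have e2 := (μ.H_pair X fun z => X z + Y z).2 h2 x (x + b)
    have e3 : {z | X z = x} ∩ {z | Y z = b} = {z | X z = x} ∩ {z | X z + Y z = x + b} := by
      ext z
      simp only [Set.mem_inter_iff, Set.mem_ofPred_eq]
      refine and_congr_right fun e => ?_
      rw [e, add_right_inj]
    rw [e3, e2] at e1
    exact (mul_left_cancel₀ hx.ne' e1).symm
  have step : ∀ b, μ.P {z | Y z = b + (a - a')} = μ.P {z | Y z = b} := fun b => by
    rw [key a' _ ha', key a _ ha, show a' + (b + (a - a')) = a + b by ring]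
  have it : ∀ n : ℕ, μ.P {z | Y z = n * (a - a')} = μ.P {z | Y z = 0} := fun n => by
    induction n with
    | zero => simp
    | succ n ih => rw [Nat.cast_succ, add_mul, one_mul, step, ih]
  obtain ⟨u, hu⟩ := unit_sub p hl hr
  have all : ∀ b, μ.P {z | Y z = b} = μ.P {z | Y z = 0} := fun b => by
    rw [← it (b * ↑u⁻¹).val, ZMod.natCast_zmod_val, ← hu, mul_assoc, u.inv_mul, mul_one]
  have s := μ.sum_P Y
  have p0 : (0 : ℝ) < (p : ℝ) ^ l := pow_pos (by exact_mod_cast hp.out.pos) l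
  rw [FA.H]
  simp only [all, sum_const, card_univ, ZMod.card, nsmul_eq_mul, Nat.cast_pow] at s ⊢
  have e : μ.P {z | Y z = 0} = ((p : ℝ) ^ l)⁻¹ := eq_inv_of_mul_eq_one_right s
  rw [e, negMulLog, log_inv, log_pow]
  field_simp

end GAINx

theorem GAIN : GAIN_s := by
  intro p hp l c d hl hc hd
  by_contra n
  have k : ∀ m : ℕ, ∃ ν : FA (ZMod (p ^ l) × ZMod (p ^ l)),
      c ≤ ν.H (fun z => red p l z.1) ∧ ν.H Prod.snd ≤ l * log p - d ∧
      (ν.H Prod.fst + ν.H Prod.snd - ν.H (pr Prod.fst Prod.snd)) +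
        (ν.H Prod.fst + ν.H (fun z => z.1 + z.2) - ν.H (pr Prod.fst Prod.snd)) ≤
        1 / ((m : ℝ) + 1) := fun m => by
    by_contra q
    refine n ⟨1 / ((m : ℝ) + 1), Nat.one_div_pos_of_nat, fun Ω μ X Y h1 h2 => ?_⟩
    by_contra h3
    exact q ⟨μ.map (pr X Y), h1, h2, (not_le.1 h3).le⟩
  choose ν h1 h2 h3 using k
  obtain ⟨μ, -, hμ⟩ := FA.exists_lim ν
  have a1 : c ≤ μ.H (fun z => red p l z.1) := ge_of_tendsto' (hμ _ _) h1
  have a2 : μ.H Prod.snd ≤ l * log p - d := le_of_tendsto' (hμ _ _) h2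
  have a3 : (μ.H Prod.fst + μ.H Prod.snd - μ.H (pr Prod.fst Prod.snd)) +
      (μ.H Prod.fst + μ.H (fun z => z.1 + z.2) - μ.H (pr Prod.fst Prod.snd)) ≤ 0 :=
    le_of_tendsto_of_tendsto' ((((hμ _ _).add (hμ _ _)).sub (hμ _ _)).add
      (((hμ _ _).add (hμ _ _)).sub (hμ _ _)))
      (tendsto_one_div_add_atTop_nhds_zero_nat.mono_left Nat.hyperfilter_le_atTop) h3
  have b1 := (μ.H_pair Prod.fst Prod.snd).1
  have b2 := (μ.H_pair Prod.fst fun z => z.1 + z.2).1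
  have b3 : μ.H (pr Prod.fst fun z => z.1 + z.2) = μ.H (pr Prod.fst Prod.snd) :=
    μ.H_eq (fun z z' e => by
      obtain ⟨e1, e2⟩ := pr_eq.1 e
      rw [e1, add_right_inj] at e2
      exact pr_eq.2 ⟨e1, e2⟩) fun z z' e => by
      obtain ⟨e1, e2⟩ := pr_eq.1 e
      exact pr_eq.2 ⟨e1, by rw [e1, e2]⟩
  have := GAINx.rigid p hl μ Prod.fst Prod.snd (hc.trans_le a1) (by linarith) (by linarith)
  linarith

end Pool.Agent.MP_7915da_nt.J77
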