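import Pool.Agent.MP_7915da_nt.J77.Defs

namespace Pool.Agent.MP_7915da_nt.J77
open Finset Real
open scoped Classical

namespace I1x

lemma join {a a' q m : ℤ} (h : a ≡ a' [ZMOD q]) (h' : a / q ≡ a' / q [ZMOD m]) :
    a ≡ a' [ZMOD q * m] := by
  have e : a % q = a' % q := h
  rw [← Int.emod_add_mul_ediv a q, ← Int.emod_add_mul_ediv a' q, e]
  exact (h'.mul_left').add_left _

lemma cancel {t t' Z Z' P J m : ℤ} (hP : P ≠ 0) (hJ : J ≠ 0) (ht : t ≡ t' [ZMOD P * J])
    (hZ : Z ≡ Z' [ZMOD J]) (h : t + P * Z ≡ t' + P * Z' [ZMOD P * J * m]) :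
    t / (P * J) + Z / J ≡ t' / (P * J) + Z' / J [ZMOD m] := by
  have e1 : t % (P * J) = t' % (P * J) := ht
  have e2 : Z % J = Z' % J := hZ
  have k : ∀ a b : ℤ, a + P * b =
      (a % (P * J) + P * (b % J)) + P * J * (a / (P * J) + b / J) := fun a b => by
    have h1 := Int.emod_add_mul_ediv a (P * J)
    have h2 := Int.emod_add_mul_ediv b J
    linear_combination (-1 : ℤ) * h1 - P * h2
  rw [k t Z, k t' Z', e1, e2] at h
  exact Int.ModEq.mul_left_cancel' (mul_ne_zero hP hJ) (Int.ModEq.add_left_cancel' _ h)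

variable {p : ℕ} {ψ : ℕ → ℕ → ℤ}

lemma cast_eq {k : ℕ} {a a' : ℤ} :
    ((a : ZMod (p ^ k)) = (a' : ZMod (p ^ k))) ↔ a ≡ a' [ZMOD (p : ℤ) ^ k] := by
  rw [ZMod.intCast_eq_intCast_iff, Nat.cast_pow]

lemma split (G : Good p ψ) (u b j l z : ℕ) :
    ψ (u + b + j + l) z ≡ tt p ψ (u + b + j) j l z + (p : ℤ) ^ (u + b) * ψ (j + l) z
      [ZMOD (p : ℤ) ^ (u + b + j + l)] := by
  have h := G.coc (u + b) (j + l) z
  rw [← add_assoc] at h
  exact h

lemma low (G : Good p ψ) {j l z z' : ℕ} :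
    vv p ψ l j z = vv p ψ l j z' ↔ ψ (j + l) z ≡ ψ (j + l) z' [ZMOD (p : ℤ) ^ j] := by
  rw [vv_eq]
  exact ⟨fun h => (G.con j l z).trans (h.trans (G.con j l z').symm),
    fun h => (G.con j l z).symm.trans (h.trans (G.con j l z'))⟩

lemma top {k z z' : ℕ} :
    vv p ψ 0 k z = vv p ψ 0 k z' ↔ ψ k z ≡ ψ k z' [ZMOD (p : ℤ) ^ k] := by
  rw [vv_eq, pow_zero, Nat.div_one, Nat.div_one]

lemma OO_eq {n b j l L z z' : ℕ} : OO p ψ n b j l L z = OO p ψ n b j l L z' ↔
    (blk p (n + l) L z = blk p (n + l) L z' ∧ blk p (j + l) b z = blk p (j + l) b z') ∧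
      tt p ψ n j l z ≡ tt p ψ n j l z' [ZMOD (p : ℤ) ^ n] ∧ vv p ψ l j z = vv p ψ l j z' := by
  rw [OO, pr_eq, pr_eq, pr_eq, cast_eq]

lemma shift [Fact p.Prime] {μ : FA ℕ} (h : Inv p μ) (n L l : ℕ) :
    FF p ψ μ n L = μ.H (pr (vv p ψ l n) (blk p (n + l) L)) - Hb p μ L := by
  rw [FF, h.Hb, ← h.H (pr (vv p ψ 0 n) (blk p n L)) l]
  simp only [pr, vv_shift, blk_shift, zero_add]
  rfl

end I1x
open I1x

theorem I1 : I1_s := by
  intro p hp ψ μ θ P u b j l L n hn hb hL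
  subst hn
  have G := P.good
  have p0 : (p : ℤ) ≠ 0 := by exact_mod_cast hp.out.ne_zero
  constructor
  · rw [shift P.inv (u + b + j + l) L 0, shift P.inv (u + b + j) L l, add_zero]
    have := μ.H_sub (α := OO p ψ (u + b + j) b j l L)
      (β := pr (vv p ψ 0 (u + b + j + l)) (blk p (u + b + j + l) L))
      (δ := pr (fun z => XX p ψ (u + b + j) j l z + YY p ψ j l z) (OO p ψ (u + b + j) b j l L))
      (ζ := pr (vv p ψ l (u + b + j)) (blk p (u + b + j + l) L))
      (fun z z' e => by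
        obtain ⟨⟨e1, -⟩, e3, e4⟩ := OO_eq.1 e
        refine pr_eq.2 ⟨(low G).2 ?_, e1⟩
        have d : (p : ℤ) ^ (u + b + j) ∣ (p : ℤ) ^ (u + b + j + l) :=
          pow_dvd_pow _ (Nat.le_add_right _ _)
        refine ((split G u b j l z).of_dvd d).trans
          (Int.ModEq.trans (e3.add ?_) ((split G u b j l z').of_dvd d).symm)
        rw [pow_add (p : ℤ) (u + b) j]
        exact ((low G).1 e4).mul_left')
      (fun z z' e => by
        obtain ⟨e1, e2⟩ := pr_eq.1 e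
        exact pr_eq.2 ⟨(low G).2 ((top.1 e1).of_dvd (pow_dvd_pow _ (Nat.le_add_right _ _))), e2⟩)
      (fun z z' e => by
        obtain ⟨e0, e'⟩ := pr_eq.1 e
        obtain ⟨-, e3, e4⟩ := OO_eq.1 e0
        refine pr_eq.2 ⟨?_, e0⟩
        have k := (split G u b j l z).symm.trans
          ((top.1 (pr_eq.1 e').1).trans (split G u b j l z'))
        rw [pow_add (p : ℤ) (u + b + j) l, pow_add (p : ℤ) (u + b) j] at k
        rw [pow_add (p : ℤ) (u + b) j] at e3
        have k2 := cancel (pow_ne_zero _ p0) (pow_ne_zero _ p0) e3 ((low G).1 e4) k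
        rw [← pow_add] at k2
        have k3 := cast_eq.2 k2
        rw [Int.cast_add, Int.cast_add] at k3
        exact k3)
    linarith
  · rw [shift P.inv (j + l) (L + u + b) 0, shift P.inv j (L + u + b) l, add_zero]
    have := μ.H_sub (α := pr (YY p ψ j l) (OO p ψ (u + b + j) b j l L))
      (β := pr (vv p ψ l j) (blk p (j + l) (L + u + b)))
      (δ := pr (vv p ψ 0 (j + l)) (blk p (j + l) (L + u + b)))
      (ζ := OO p ψ (u + b + j) b j l L)
      (fun z z' e => (pr_eq.1 e).2)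
      (fun z z' e => by
        obtain ⟨e1, e2⟩ := pr_eq.1 e
        refine OO_eq.2 ⟨⟨blk_sub (by omega) (by omega) e2, blk_sub le_rfl (by omega) e2⟩, ?_, e1⟩
        have k := G.pad (o := 0) (n := u + b) (k := j + l) (z := z) (z' := z')
          (blk_sub (by omega) (by omega) e2)
        rw [pow_zero, Nat.div_one, Nat.div_one, ← add_assoc] at k
        exact k.of_dvd (pow_dvd_pow _ (Nat.le_add_right _ _)))
      (fun z z' e => by
        obtain ⟨e0, e'⟩ := pr_eq.1 e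
        obtain ⟨e1, e2⟩ := pr_eq.1 e'
        refine pr_eq.2 ⟨top.2 ?_, e2⟩
        rw [pow_add]
        exact join ((low G).1 e1) (cast_eq.1 (pr_eq.1 e0).1))
    linarith

end Pool.Agent.MP_7915da_nt.J77
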