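import Pool.Agent.MP_7915da_nt.J77.Defs

namespace Pool.Agent.MP_7915da_nt.J77
open Finset Real
open scoped Classical

namespace I2x

/-- data processing for conditional mutual information -/
lemma key {Ω A1 A2 A3 A4 A5 A6 A7 A8 A9 : Type} [Fintype A1] [Fintype A2] [Fintype A3]
    [Fintype A4] [Fintype A5] [Fintype A6] [Fintype A7] [Fintype A8] [Fintype A9] (μ : FA Ω)
    {X : Ω → A1} {Y : Ω → A2} {O : Ω → A3} {P : Ω → A4} {Q : Ω → A5} {R : Ω → A6} {S : Ω → A7}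
    (a : Ω → A8) (c : Ω → A9) (PX : Det P X) (Pa : Det P a) (QY : Det Q Y) (Qc : Det Q c)
    (aR : Det a R) (QR : Det Q R) (Oa : Det O a) (Oc : Det O c) (acO : Det (pr a c) O)
    (PQS : Det (pr P Q) S) :
    μ.H (pr X O) + μ.H (pr Y O) - μ.H (pr (pr X Y) O) - μ.H O ≤
      (μ.H Q - μ.H R) - (μ.H S - μ.H P) := by
  have h1 := μ.H_sub (α := pr P c) (β := pr (pr X Y) O) (δ := pr P (pr Y c)) (ζ := pr X O)
    (fun z z' e => by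
      obtain ⟨e1, e2⟩ := pr_eq.1 e
      exact pr_eq.2 ⟨PX z z' e1, acO z z' (pr_eq.2 ⟨Pa z z' e1, e2⟩)⟩)
    (fun z z' e => by
      obtain ⟨e1, e2⟩ := pr_eq.1 e
      exact pr_eq.2 ⟨(pr_eq.1 e1).1, e2⟩)
    (fun z z' e => by
      obtain ⟨e1, e2⟩ := pr_eq.1 e
      exact pr_eq.2 ⟨(pr_eq.1 e1).1, pr_eq.2 ⟨(pr_eq.1 (pr_eq.1 e2).1).2, (pr_eq.1 e1).2⟩⟩)
  have h2 := μ.H_sub (α := pr Q a) (β := pr P (pr Y c)) (δ := S) (ζ := pr Y O)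
    (fun z z' e => by
      obtain ⟨e1, e2⟩ := pr_eq.1 e
      exact pr_eq.2 ⟨QY z z' e1, acO z z' (pr_eq.2 ⟨e2, Qc z z' e1⟩)⟩)
    (fun z z' e => by
      obtain ⟨e1, e2⟩ := pr_eq.1 e
      obtain ⟨e2, e3⟩ := pr_eq.1 e2
      exact pr_eq.2 ⟨e2, acO z z' (pr_eq.2 ⟨Pa z z' e1, e3⟩)⟩)
    (fun z z' e => by
      obtain ⟨e1, e2⟩ := pr_eq.1 e
      exact PQS z z' (pr_eq.2 ⟨(pr_eq.1 e2).1, (pr_eq.1 e1).1⟩))
  have h3 := μ.H_sub (α := P) (β := O) (δ := pr P c) (ζ := a) Pa Oa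
    (fun z z' e => by
      obtain ⟨e1, e2⟩ := pr_eq.1 e
      exact pr_eq.2 ⟨e1, Oc z z' e2⟩)
  have h4 := μ.H_sub (α := Q) (β := a) (δ := pr Q a) (ζ := R) QR aR (fun z z' e => e)
  linarith

variable {p : ℕ} {ψ : ℕ → ℕ → ℤ} {z z' : ℕ}

lemma div_cong {q a b : ℤ} {n l : ℕ} (hq : q ≠ 0) (h : a ≡ b [ZMOD q ^ (n + l)]) :
    a / q ^ n ≡ b / q ^ n [ZMOD q ^ l] := by
  obtain ⟨k, hk⟩ := h.dvd
  have e : b = a + q ^ n * (q ^ l * k) := by rw [← mul_assoc, ← pow_add, ← hk]; ring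
  rw [e, Int.add_mul_ediv_left _ _ (pow_ne_zero n hq)]
  exact (Int.modEq_iff_dvd.2 ⟨k, by ring⟩)

lemma cast_iff {a b : ℤ} {k : ℕ} :
    ((a : ℤ) : ZMod (p ^ k)) = ((b : ℤ) : ZMod (p ^ k)) ↔ a ≡ b [ZMOD (p : ℤ) ^ k] := by
  rw [ZMod.intCast_eq_intCast_iff, Nat.cast_pow]

lemma tt_cong (G : Good p ψ) {n j l W : ℕ} (hW : 2 * (n + l) ≤ j + l + W)
    (h : blk p (j + l) W z = blk p (j + l) W z') :
    tt p ψ n j l z ≡ tt p ψ n j l z' [ZMOD (p : ℤ) ^ (n + l)] := by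
  refine G.loc _ _ _ ?_
  rw [blk_eq] at h
  refine (h.mul_left' (p ^ (j + l))).of_dvd ?_
  rw [← pow_add]
  exact pow_dvd_pow p hW

lemma YY_of (hp : p ≠ 0) {j l : ℕ} (h : vv p ψ 0 (j + l) z = vv p ψ 0 (j + l) z') :
    YY p ψ j l z = YY p ψ j l z' := by
  rw [vv_eq, pow_zero, Nat.div_one, Nat.div_one] at h
  exact cast_iff.2 (div_cong (by exact_mod_cast hp) h)

end I2x

theorem I2 : I2_s := by
  intro p hp ψ μ θ hP u b j l L n hn hb hL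
  have p0 : p ≠ 0 := hp.out.ne_zero
  have G := hP.good
  have k := I2x.key μ (X := XX p ψ n j l) (Y := YY p ψ j l) (O := OO p ψ n b j l L)
    (P := blk p (j + l) (L + u + b)) (Q := blk p 0 (b + j + l)) (R := blk p (j + l) b)
    (S := blk p 0 (L + u + b + j + l))
    (pr (pr (blk p (n + l) L) (blk p (j + l) b))
      (fun z => ((tt p ψ n j l z : ℤ) : ZMod (p ^ n)))) (vv p ψ l j)
    (fun z z' h => I2x.cast_iff.2 (I2x.div_cong (by exact_mod_cast p0)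
      (I2x.tt_cong G (by omega) h)))
    (fun z z' h => pr_eq.2 ⟨pr_eq.2 ⟨blk_sub (by omega) (by omega) h,
      blk_sub le_rfl (by omega) h⟩, I2x.cast_iff.2
        ((I2x.tt_cong G (by omega) h).of_dvd (pow_dvd_pow _ (n.le_add_right l)))⟩)
    (fun z z' h => I2x.YY_of p0 (G.vv_loc (blk_sub le_rfl (by omega) h)))
    (fun z z' h => G.vv_loc (blk_sub (by omega) (by omega) h))
    (fun z z' h => (pr_eq.1 (pr_eq.1 h).1).2)
    (fun z z' h => blk_sub (by omega) (by omega) h)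
    (fun z z' h => pr_eq.2 ⟨(pr_eq.1 h).1, (pr_eq.1 (pr_eq.1 h).2).1⟩)
    (fun z z' h => (pr_eq.1 (pr_eq.1 h).2).2)
    (fun z z' h => pr_eq.2 ⟨(pr_eq.1 (pr_eq.1 h).1).1,
      pr_eq.2 ⟨(pr_eq.1 (pr_eq.1 h).1).2, (pr_eq.1 h).2⟩⟩)
    (fun z z' h => blk_cat (by omega) le_rfl (by omega) (pr_eq.1 h).2 (pr_eq.1 h).1)
  rw [Inv.Hb p hP.inv, Inv.Hb p hP.inv, Inv.Hb p hP.inv, Inv.Hb p hP.inv] at k
  exact k

end Pool.Agent.MP_7915da_nt.J77
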