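import Pool.Agent.MP_7915da_nt.J77.Defs

namespace Pool.Agent.MP_7915da_nt.J77
open Finset Real
open scoped Classical

namespace I3x

lemma join {a a' q m : ℤ} (h : a ≡ a' [ZMOD q]) (h' : a / q ≡ a' / q [ZMOD m]) :
    a ≡ a' [ZMOD q * m] := by
  have e : a % q = a' % q := h
  rw [← Int.emod_add_mul_ediv a q, ← Int.emod_add_mul_ediv a' q, e]
  exact (h'.mul_left').add_left _

variable {p : ℕ} {ψ : ℕ → ℕ → ℤ}

lemma cast_eq {k : ℕ} {a a' : ℤ} :
    ((a : ZMod (p ^ k)) = (a' : ZMod (p ^ k))) ↔ a ≡ a' [ZMOD (p : ℤ) ^ k] := by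
  rw [ZMod.intCast_eq_intCast_iff, Nat.cast_pow]

lemma split (G : Good p ψ) (u b j l z : ℕ) :
    ψ (u + b + j + l) z ≡ tt p ψ (u + b + j) j l z + (p : ℤ) ^ (u + b) * ψ (j + l) z
      [ZMOD (p : ℤ) ^ (u + b + j + l)] := by
  have h := G.coc (u + b) (j + l) z
  rw [← add_assoc] at h
  exact h

lemma low (G : Good p ψ) {j l z z' : ℕ} :
    vv p ψ l j z = vv p ψ l j z' ↔ ψ (j + l) z ≡ ψ (j + l) z' [ZMOD (p : ℤ) ^ j] := by
  rw [vv_eq]
  exact ⟨fun h => (G.con j l z).trans (h.trans (G.con j l z').symm),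
    fun h => (G.con j l z).symm.trans (h.trans (G.con j l z'))⟩

lemma top {k z z' : ℕ} :
    vv p ψ 0 k z = vv p ψ 0 k z' ↔ ψ k z ≡ ψ k z' [ZMOD (p : ℤ) ^ k] := by
  rw [vv_eq, pow_zero, Nat.div_one, Nat.div_one]

lemma OO_eq {n b j l L z z' : ℕ} : OO p ψ n b j l L z = OO p ψ n b j l L z' ↔
    (blk p (n + l) L z = blk p (n + l) L z' ∧ blk p (j + l) b z = blk p (j + l) b z') ∧
      tt p ψ n j l z ≡ tt p ψ n j l z' [ZMOD (p : ℤ) ^ n] ∧ vv p ψ l j z = vv p ψ l j z' := by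
  rw [OO, pr_eq, pr_eq, pr_eq, cast_eq]

lemma red_cast [Fact p.Prime] {l : ℕ} (hl : 1 ≤ l) (a : ℤ) :
    red p l (a : ZMod (p ^ l)) = (a : ZMod p) := by
  rw [red, ← Int.cast_natCast, ZMod.val_intCast, ZMod.intCast_eq_intCast_iff]
  refine (Int.mod_modEq _ _).of_dvd ?_
  rw [Nat.cast_pow]
  exact dvd_pow_self _ (by omega)

end I3x
open I3x

theorem I3 : I3_s := by
  intro p hp ψ μ G u b j l L n hn hb hL hl
  subst hn
  obtain ⟨m, rfl⟩ : ∃ m, l = 1 + m := ⟨l - 1, by omega⟩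
  have zz : ∀ z z', blk p 0 (b + j + (1 + m)) z = blk p 0 (b + j + (1 + m)) z' →
      ψ (j + (1 + m)) z ≡ ψ (j + (1 + m)) z' [ZMOD (p : ℤ) ^ (j + (1 + m))] := fun z z' e =>
    top.1 (G.vv_loc (blk_sub le_rfl (by omega) e))
  rw [TT, TT, show u + b + j + (1 + m) - (u + b + j + 1) = m by omega,
    show u + b + j + (1 + m) - (u + b + j) = 1 + m by omega]
  have := μ.H_sub
    (α := pr (fun z => red p (1 + m) (XX p ψ (u + b + j) j (1 + m) z))
      (OO p ψ (u + b + j) b j (1 + m) L))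
    (β := pr (vv p ψ (1 + m) (u + b + j))
      (pr (blk p (u + b + j + (1 + m)) L) (blk p 0 (b + j + (1 + m)))))
    (δ := pr (vv p ψ m (u + b + j + 1))
      (pr (blk p (u + b + j + (1 + m)) L) (blk p 0 (b + j + (1 + m)))))
    (ζ := OO p ψ (u + b + j) b j (1 + m) L)
    (fun z z' e => (pr_eq.1 e).2)
    (fun z z' e => by
      obtain ⟨e1, e'⟩ := pr_eq.1 e
      obtain ⟨e2, e3⟩ := pr_eq.1 e'
      have hz := (zz z z' e3).of_dvd (pow_dvd_pow (p : ℤ) (Nat.le_add_right j (1 + m)))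
      refine OO_eq.2 ⟨⟨e2, blk_sub (by omega) (by omega) e3⟩, ?_, (low G).2 hz⟩
      have d : (p : ℤ) ^ (u + b + j) ∣ (p : ℤ) ^ (u + b + j + (1 + m)) :=
        pow_dvd_pow _ (Nat.le_add_right _ _)
      have k := ((split G u b j (1 + m) z).of_dvd d).symm.trans
        (((low G).1 e1).trans ((split G u b j (1 + m) z').of_dvd d))
      refine Int.ModEq.add_right_cancel ?_ k
      rw [pow_add (p : ℤ) (u + b) j]
      exact hz.mul_left')
    (fun z z' e => by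
      obtain ⟨e0, e'⟩ := pr_eq.1 e
      obtain ⟨e1, e2⟩ := pr_eq.1 e0
      obtain ⟨-, e3, -⟩ := OO_eq.1 e2
      refine pr_eq.2 ⟨(low G).2 ?_, (pr_eq.1 e').2⟩
      have hz := (zz z z' (pr_eq.1 (pr_eq.1 e').2).2).of_dvd
        (pow_dvd_pow (p : ℤ) (show j + 1 ≤ j + (1 + m) by omega))
      have e4 : red p (1 + m) (XX p ψ (u + b + j) j (1 + m) z) =
          red p (1 + m) (XX p ψ (u + b + j) j (1 + m) z') := e1
      rw [XX, XX, red_cast hl, red_cast hl, ZMod.intCast_eq_intCast_iff] at e4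
      have ht := join e3 e4
      rw [← pow_succ] at ht
      have d : (p : ℤ) ^ (u + b + j + 1) ∣ (p : ℤ) ^ (u + b + j + (1 + m)) :=
        pow_dvd_pow _ (by omega)
      rw [add_assoc (u + b + j) 1 m]
      refine ((split G u b j (1 + m) z).of_dvd d).trans
        (Int.ModEq.trans (ht.add ?_) ((split G u b j (1 + m) z').of_dvd d).symm)
      rw [add_assoc (u + b) j 1, pow_add (p : ℤ) (u + b) (j + 1)]
      exact hz.mul_left')
  linarith

end Pool.Agent.MP_7915da_nt.J77
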