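import Pool.Agent.MP_7915da_nt.J77.Defs

namespace Pool.Agent.MP_7915da_nt.J77
open Finset Real
open scoped Classical

namespace I4x
variable {p : ℕ} {ψ : ℕ → ℕ → ℤ} {z z' : ℕ}

lemma div_cong {q a b : ℤ} {n l : ℕ} (hq : q ≠ 0) (h : a ≡ b [ZMOD q ^ (n + l)]) :
    a / q ^ n ≡ b / q ^ n [ZMOD q ^ l] := by
  obtain ⟨k, hk⟩ := h.dvd
  have e : b = a + q ^ n * (q ^ l * k) := by rw [← mul_assoc, ← pow_add, ← hk]; ring
  rw [e, Int.add_mul_ediv_left _ _ (pow_ne_zero n hq)]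
  exact (Int.modEq_iff_dvd.2 ⟨k, by ring⟩)

lemma cong_of_div {q a b : ℤ} {n l : ℕ} (h : a ≡ b [ZMOD q ^ n])
    (h' : a / q ^ n ≡ b / q ^ n [ZMOD q ^ l]) : a ≡ b [ZMOD q ^ (n + l)] := by
  obtain ⟨k, hk⟩ := h'.dvd
  have e1 := Int.mul_ediv_add_emod a (q ^ n)
  have e2 := Int.mul_ediv_add_emod b (q ^ n)
  have e3 : a % q ^ n = b % q ^ n := h
  refine Int.modEq_iff_dvd.2 ⟨k, ?_⟩
  rw [pow_add, mul_assoc, ← hk]
  linear_combination e1 - e2 - e3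

lemma cast_iff {a b : ℤ} {k : ℕ} :
    ((a : ℤ) : ZMod (p ^ k)) = ((b : ℤ) : ZMod (p ^ k)) ↔ a ≡ b [ZMOD (p : ℤ) ^ k] := by
  rw [ZMod.intCast_eq_intCast_iff, Nat.cast_pow]

lemma tt_cong (G : Good p ψ) {n j l W : ℕ} (hW : 2 * (n + l) ≤ j + l + W)
    (h : blk p (j + l) W z = blk p (j + l) W z') :
    tt p ψ n j l z ≡ tt p ψ n j l z' [ZMOD (p : ℤ) ^ (n + l)] := by
  refine G.loc _ _ _ ?_
  rw [blk_eq] at h
  refine (h.mul_left' (p ^ (j + l))).of_dvd ?_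
  rw [← pow_add]
  exact pow_dvd_pow p hW

lemma YY_of (hp : p ≠ 0) {j l : ℕ} (h : vv p ψ 0 (j + l) z = vv p ψ 0 (j + l) z') :
    YY p ψ j l z = YY p ψ j l z' := by
  rw [vv_eq, pow_zero, Nat.div_one, Nat.div_one] at h
  exact cast_iff.2 (div_cong (by exact_mod_cast hp) h)

lemma vv_of (G : Good p ψ) {j l : ℕ} (h : vv p ψ l j z = vv p ψ l j z')
    (h' : YY p ψ j l z = YY p ψ j l z') : vv p ψ 0 (j + l) z = vv p ψ 0 (j + l) z' := by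
  rw [vv_eq, pow_zero, Nat.div_one, Nat.div_one]
  rw [vv_eq] at h
  exact cong_of_div ((G.con j l z).trans (h.trans (G.con j l z').symm)) (cast_iff.1 h')

end I4x

theorem I4 : I4_s := by
  intro p hp ψ G u b j l L n hn hb hL
  have p0 : p ≠ 0 := hp.out.ne_zero
  refine ⟨fun z z' h => ?_, fun z z' h => ?_, fun z z' h => ?_, fun z z' h => ?_⟩
  · refine pr_eq.2 ⟨pr_eq.2 ⟨blk_sub (by omega) (by omega) h, blk_sub (by omega) (by omega) h⟩,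
      pr_eq.2 ⟨I4x.cast_iff.2 ?_, G.vv_loc (blk_sub le_rfl (by omega) h)⟩⟩
    exact (I4x.tt_cong G (W := L + u + b) (by omega) (blk_sub (by omega) (by omega) h)).of_dvd
      (pow_dvd_pow _ (n.le_add_right l))
  · obtain ⟨h1, h2⟩ := pr_eq.1 h
    exact I4x.YY_of p0 (G.vv_loc (blk_cat (by omega) le_rfl (by omega) h2 h1))
  · obtain ⟨h1, h2⟩ := pr_eq.1 h
    exact (G.vv_coc p0 (o := 0) (n := j) (k := l) (blk_sub (by omega) (by omega) h1)).1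
      (I4x.vv_of G (G.vv_loc (blk_sub le_rfl (by omega) h1)) h2)
  · obtain ⟨h1, h2⟩ := pr_eq.1 h
    exact I4x.YY_of p0
      ((G.vv_coc p0 (o := 0) (n := j) (k := l) (blk_sub (by omega) (by omega) h1)).2 h2)

end Pool.Agent.MP_7915da_nt.J77
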