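import Pool.Agent.MP_7915da_nt.J77.Defs

namespace Pool.Agent.MP_7915da_nt.J77
open Finset Real
open scoped Classical

theorem INC (hA : AVG_s) (hC : CAP_s) (h1 : I1_s) (h2 : I2_s) (h3 : I3_s) (h4 : I4_s) : INC_s := by
  intro p hp ψ μ θ P th l c δ hl c0 d0 hG u b j L n hn hb hL hc i U Lo hi hU hLo
  obtain ⟨a1, a2⟩ := h1 p ψ μ θ P u b j l L n hn hb hL
  have a3 := h2 p ψ μ θ P u b j l L n hn hb hL
  have a4 := h3 p ψ μ P.good u b j l L n hn hb hL hl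
  obtain ⟨d1, d2, d3, d4⟩ := h4 p ψ P.good u b j l L n hn hb hL
  have l0 : (0 : ℝ) < l := by exact_mod_cast hl
  have lL : l ≤ L + n := by omega
  set Φ := blk p l (L + n) with hΦ
  set K := blk p 0 l with hK
  set X := XX p ψ n j l with hX
  set Y := YY p ψ j l with hY
  set O := OO p ψ n b j l L with hO
  have e1 : Det (pr Φ Y) (pr Φ (vv p ψ 0 l)) := fun z z' e => pr_eq.2 ⟨(pr_eq.1 e).1, d3 z z' e⟩
  have e2 : Det (pr Φ (vv p ψ 0 l)) (pr Φ Y) := fun z z' e => pr_eq.2 ⟨(pr_eq.1 e).1, d4 z z' e⟩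
  have kk : ∀ ν : FA ℕ, ν.H (pr K (pr Φ Y)) - ν.H (pr Φ Y) = KK p ψ ν 0 l (L + n) := fun ν => by
    rw [KK, zero_add, ν.H_eq e1 e2, ν.H_eq (φ := pr K (pr Φ Y)) (χ := pr K (pr Φ (vv p ψ 0 l)))
      (fun z z' e => pr_eq.2 ⟨(pr_eq.1 e).1, e1 z z' (pr_eq.1 e).2⟩)
      (fun z z' e => pr_eq.2 ⟨(pr_eq.1 e).1, e2 z z' (pr_eq.1 e).2⟩)]
  have fb := P.fib l (L + n)
  have av := hA p l c (θ * l) δ (log (NN p ψ l)) c0 (mul_pos th l0) d0 hG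
    (fb.trans (hC p ψ P.good μ 0 l _ lL)) ℕ _ _ μ O Φ X Y K d1
    (fun ν => (kk ν).trans_le (hC p ψ P.good ν 0 l _ lL)) d2 (hc.trans a4)
  have f1 : μ.H (pr Y Φ) - μ.H Φ = FF p ψ μ l (L + n) := by
    rw [FF, μ.H_swap, μ.H_eq e1 e2, μ.H_swap]
  have s : μ.H (pr (pr X Y) O) + μ.H O ≤ μ.H (pr X O) + μ.H (pr (fun z => X z + Y z) O) :=
    μ.H_sub (fun z z' e => (pr_eq.1 e).2) (fun z z' e => (pr_eq.1 e).2) fun z z' e => by
      obtain ⟨u1, u2⟩ := pr_eq.1 e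
      obtain ⟨u3, u4⟩ := pr_eq.1 u1
      have u5 : X z + Y z = X z' + Y z' := (pr_eq.1 u2).1
      rw [u3] at u5
      exact pr_eq.2 ⟨pr_eq.2 ⟨u3, add_left_cancel u5⟩, u4⟩
  rw [kk, f1] at av
  have s' : μ.H (pr Y O) - μ.H O ≤ U + i := by
    have : μ.H (pr (pr X Y) O) + μ.H O ≤ μ.H (pr X O) + μ.H (pr Y O) :=
      μ.H_sub (fun z z' e => (pr_eq.1 e).2) (fun z z' e => (pr_eq.1 e).2) fun z z' e => by
        obtain ⟨u1, u2⟩ := pr_eq.1 e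
        exact pr_eq.2 ⟨pr_eq.2 ⟨(pr_eq.1 u1).1, (pr_eq.1 u2).1⟩, (pr_eq.1 u1).2⟩
    linarith
  refine le_trans (mul_le_mul_of_nonneg_left (sub_le_sub_left
    (div_le_div_of_nonneg_right ?_ (mul_pos th l0).le) _) d0.le) (av.trans ?_)
  · linarith
  · linarith

end Pool.Agent.MP_7915da_nt.J77
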