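import Pool.Agent.MP_7915da_nt.J77.Defs

namespace Pool.Agent.MP_7915da_nt.J77
open Finset Real
open scoped Classical

theorem MIX : MIX_s := by
  intro T hT ν
  have T0 : (0 : ℝ) < T := by exact_mod_cast hT
  let m : FA (Fin T × ℕ) := ⟨fun s => (∑ r : Fin T, (ν r).P {z | (r, z) ∈ s}) / T,
    fun s => div_nonneg (sum_nonneg fun r _ => (ν r).nn _) T0.le,
    by simp [FA.one, T0.ne'], fun s t d => by
      rw [← add_div, ← sum_add_distrib]
      congr 1
      exact sum_congr rfl fun r _ => (ν r).add _ _ (d.preimage fun z => (r, z))⟩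
  have k : ∀ (r : Fin T) (s : Set ℕ),
      m.P ({w | w.2 ∈ s} ∩ {w | w.1 = r}) = (ν r).P s / T := fun r s => by
    show (∑ r' : Fin T, _) / _ = _
    rw [sum_eq_single r (fun r' _ h => by simp [h, FA.empty]) (by simp)]
    simp
  have k1 : ∀ r : Fin T, m.P {w | w.1 = r} = 1 / T := fun r => by
    simpa [FA.one] using k r Set.univ
  have k2 : ∀ (A : Type) [Fintype A] (φ : ℕ → A),
      m.H (pr (fun w => φ w.2) Prod.fst) - m.H Prod.fst = (∑ r ∈ range T, (ν r).H φ) / T := by
    intro A _ φ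
    rw [m.H_cond, Finset.sum_range fun r => (ν r).H φ, sum_div]
    refine sum_congr rfl fun r _ => ?_
    rw [k1, one_div, ← div_eq_inv_mul]
    congr 1
    refine sum_congr rfl fun a _ => ?_
    rw [m.cond_P (by rw [k1]; positivity), k1]
    have := k r {z | φ z = a}
    simp only [Set.mem_ofPred_eq] at this
    rw [this]
    congr 1
    field_simp
  refine ⟨m.map Prod.snd, fun s => ?_, fun A B _ _ φ η => ?_⟩
  · rw [Finset.sum_range fun r => (ν r).P s]
    rfl
  · rw [sum_sub_distrib, sub_div, ← k2, ← k2, FA.map_H, FA.map_H]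
    have := m.H_sub (α := fun w => pr φ η w.2) (β := pr (fun w => η w.2) Prod.fst)
      (δ := pr (fun w => pr φ η w.2) Prod.fst) (ζ := fun w => η w.2)
      (fun z z' e => (pr_eq.1 e).2) (fun z z' e => (pr_eq.1 e).1)
      (fun z z' e => pr_eq.2 ⟨(pr_eq.1 e).1, (pr_eq.1 (pr_eq.1 e).2).2⟩)
    linarith

end Pool.Agent.MP_7915da_nt.J77
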