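import Pool.Agent.MP_7915da_nt.J77.Defs

namespace Pool.Agent.MP_7915da_nt.J77
open Finset Real
open scoped Classical

lemma MONx.cast {p : ℕ} {ψ : ℕ → ℕ → ℤ} {o a b z z' : ℕ} (h : a = b)
    (e : vv p ψ o a z = vv p ψ o a z') : vv p ψ o b z = vv p ψ o b z' := h ▸ e

lemma MONx.shift (p : ℕ) [Fact p.Prime] (ψ : ℕ → ℕ → ℤ) {μ : FA ℕ} (h : Inv p μ) (n L l m : ℕ)
    (hm : m = n + l) :
    FF p ψ μ n L = μ.H (pr (vv p ψ l n) (blk p m L)) - μ.H (blk p m L) := by
  subst hm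
  rw [FF, ← h.H (pr (vv p ψ 0 n) (blk p n L)) l, ← h.H (blk p n L) l]
  have e1 : (fun z => pr (vv p ψ 0 n) (blk p n L) (z / p ^ l)) =
      pr (vv p ψ l n) (blk p (n + l) L) := by
    funext z
    simp only [pr, vv_shift, blk_shift, zero_add]
  have e2 : (fun z => blk p n L (z / p ^ l)) = blk p (n + l) L := by
    funext z
    simp only [blk_shift]
  rw [e1, e2]

theorem MON : MON_s := by
  intro p hp ψ μ θ P j k l L hL
  have p0 : p ≠ 0 := hp.out.ne_zero
  rw [MONx.shift p ψ P.inv j (L + k) l (j + l) rfl, MONx.shift p ψ P.inv (j + k) L l (j + k + l) rfl,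
    FF, FF]
  have := μ.H_sub (α := pr (vv p ψ 0 (j + k + l)) (blk p (j + k + l) L))
    (β := pr (vv p ψ l j) (blk p (j + l) (L + k)))
    (δ := pr (vv p ψ 0 (j + l)) (blk p (j + l) (L + k)))
    (ζ := pr (vv p ψ l (j + k)) (blk p (j + k + l) L))
    (fun z z' e => by
      obtain ⟨e1, e2⟩ := pr_eq.1 e
      refine pr_eq.2 ⟨?_, e2⟩
      have := P.good.vv_con e1
      rwa [zero_add] at this)
    (fun z z' e => by
      obtain ⟨e1, e2⟩ := pr_eq.1 e
      refine pr_eq.2 ⟨MONx.cast (add_comm k j) ?_, blk_sub (by omega) (by omega) e2⟩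
      exact (P.good.vv_coc p0 (blk_sub (by omega) (by omega) e2)).2 e1)
    (fun z z' e => by
      obtain ⟨e0, e3⟩ := pr_eq.1 e
      obtain ⟨e1, -⟩ := pr_eq.1 e0
      obtain ⟨-, e2⟩ := pr_eq.1 e3
      refine pr_eq.2 ⟨?_, e2⟩
      exact (P.good.vv_coc (n := k) p0 (blk_sub (by omega) (by omega) e2)).1
        (MONx.cast (by omega) e1))
  linarith

end Pool.Agent.MP_7915da_nt.J77
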