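import Pool.Agent.MP_7915da_nt.J77.Defs

namespace Pool.Agent.MP_7915da_nt.J77
open Finset Real
open scoped Classical

namespace POSx

/-- uniform probability on a nonempty finite type -/
noncomputable def unif (Ω : Type) [Fintype Ω] (h : 0 < Fintype.card Ω) : FA Ω :=
  ⟨fun s => (#{z : Ω | z ∈ s} : ℝ) / Fintype.card Ω, fun _ => by positivity,
    by
      have : (0 : ℝ) < Fintype.card Ω := by exact_mod_cast h
      simp only [Set.mem_univ, filter_true, card_univ]
      exact div_self this.ne',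
    fun s t d => by
      rw [← add_div, ← Nat.cast_add, ← card_union_of_disjoint, ← filter_or]
      · simp only [Set.mem_union]
      · exact disjoint_filter.2 fun z _ h1 h2 => Set.disjoint_left.1 d h1 h2⟩

lemma unif_H (Ω : Type) [Fintype Ω] (h : 0 < Fintype.card Ω) :
    (unif Ω h).H (fun z => z) = log (Fintype.card Ω) := by
  have h0 : (0 : ℝ) < Fintype.card Ω := by exact_mod_cast h
  have h1 : ∀ a : Ω, (unif Ω h).P {z | z = a} = ((Fintype.card Ω : ℝ))⁻¹ := by
    intro a
    show (#{z : Ω | z ∈ ({z | z = a} : Set Ω)} : ℝ) / Fintype.card Ω = _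
    have : ({z : Ω | z ∈ ({z | z = a} : Set Ω)} : Finset Ω) = {a} := by ext z; simp
    rw [this]; simp
  unfold FA.H
  simp only [h1, sum_const, card_univ, nsmul_eq_mul, negMulLog, log_inv]
  field_simp

lemma key {p T x w w' r : ℕ} (hp : 0 < p) (hw : w < p ^ T) (hw' : w' < p ^ T)
    (h : blk p r T (p ^ T * x + w) = blk p r T (p ^ T * x + w')) :
    (p ^ T * x + w) / p ^ r = (p ^ T * x + w') / p ^ r := by
  have hP : 0 < p ^ T := pow_pos hp _
  have h1 : (p ^ T * x + w) / p ^ r / p ^ T = (p ^ T * x + w') / p ^ r / p ^ T := by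
    rw [Nat.div_div_eq_div_mul, Nat.div_div_eq_div_mul, mul_comm (p ^ r), ← Nat.div_div_eq_div_mul,
      ← Nat.div_div_eq_div_mul, Nat.mul_add_div hP, Nat.mul_add_div hP, Nat.div_eq_of_lt hw,
      Nat.div_eq_of_lt hw']
  have h2 : (p ^ T * x + w) / p ^ r % p ^ T = (p ^ T * x + w') / p ^ r % p ^ T := blk_eq.1 h
  rw [← Nat.div_add_mod ((p ^ T * x + w) / p ^ r) (p ^ T), h1, h2, Nat.div_add_mod]

lemma blk_of_div {p k len z z' : ℕ} (h : z / p ^ k = z' / p ^ k) :
    blk p k len z = blk p k len z' := by rw [blk, blk, h]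

end POSx

theorem POS : POS_s := by
  intro p hp ψ G T
  obtain ⟨x, ρ, hN⟩ := NN_mem p ψ T
  have p0 := hp.out.pos
  have N1 := NN_pos p0 ψ T
  set S : Finset ℕ := {w ∈ range (p ^ T) | ψ T (p ^ T * x + w) ≡ ρ [ZMOD (p : ℤ) ^ T]} with hS
  have hc : Fintype.card S = NN p ψ T := by rw [Fintype.card_coe, ← hN]; rfl
  have hlt : ∀ w : S, (w : ℕ) < p ^ T := fun w => mem_range.1 (mem_filter.1 w.2).1
  have hρ : ∀ w : S, ψ T (p ^ T * x + w) ≡ ρ [ZMOD (p : ℤ) ^ T] := fun w => (mem_filter.1 w.2).2
  set μ := POSx.unif S (by omega) with hμ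
  refine ⟨fun r => μ.map (fun w : S => (p ^ T * x + w) / p ^ r),
    fun r => μ.H (fun w : S => blk p r T (p ^ T * x + w)), fun r s => ?_, ?_, fun r => ?_,
    fun r hr => ?_, fun r => ?_, fun r l L hr => ?_⟩
  · show μ.P _ = μ.P _
    congr 1
    ext w
    simp only [Set.mem_preimage, Set.mem_ofPred_eq, Nat.div_div_eq_div_mul, pow_succ]
  · show μ.H _ = _
    rw [← hc, ← POSx.unif_H S (by omega)]
    refine μ.H_eq (fun w w' h => ?_) (fun w w' h => by rw [show w = w' from h])
    have := POSx.key p0 (hlt w) (hlt w') h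
    simp only [pow_zero, Nat.div_one] at this
    exact Subtype.ext (by omega)
  · exact μ.H_nonneg _
  · refine le_antisymm ?_ (μ.H_nonneg _)
    have h1 := μ.H_le_card (fun _ => ())
    have h2 := μ.H_det (φ := fun _ => ()) (χ := fun w : S => blk p r T (p ^ T * x + w))
      (fun w w' _ => POSx.blk_of_div (by
        obtain ⟨d, rfl⟩ := Nat.exists_eq_add_of_le hr
        have hP : 0 < p ^ T := pow_pos p0 _
        rw [pow_add, ← Nat.div_div_eq_div_mul, ← Nat.div_div_eq_div_mul, Nat.mul_add_div hP,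
          Nat.mul_add_div hP, Nat.div_eq_of_lt (hlt w), Nat.div_eq_of_lt (hlt w')]))
    simp only [Fintype.card_unit, Nat.cast_one, log_one] at h1
    exact h2.trans h1
  · have h1 := (μ.H_pair (fun w : S => blk p r 1 (p ^ T * x + w))
      (fun w : S => blk p (r + 1) T (p ^ T * x + w))).1
    have h2 := μ.H_le_card (fun w : S => blk p r 1 (p ^ T * x + w))
    have h3 := μ.H_det (φ := pr (fun w : S => blk p r 1 (p ^ T * x + w))
      (fun w : S => blk p (r + 1) T (p ^ T * x + w)))
      (χ := fun w : S => blk p r T (p ^ T * x + w)) (fun w w' h => by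
        rw [pr_eq] at h
        exact blk_cat le_rfl le_rfl (by omega) h.1 h.2)
    rw [ZMod.card, Nat.cast_pow, pow_one (p : ℝ)] at h2
    show μ.H _ ≤ μ.H _ + _
    linarith
  · obtain ⟨n, hn⟩ := Nat.exists_eq_add_of_le hr
    have h1 := μ.H_sub
      (α := fun w : S => pr (blk p 0 l) (pr (blk p (0 + l) L) (vv p ψ 0 l)) ((p ^ T * x + w) / p ^ r))
      (β := fun w : S => blk p (r + l) T (p ^ T * x + w))
      (δ := fun w : S => blk p r T (p ^ T * x + w))
      (ζ := fun w : S => pr (blk p (0 + l) L) (vv p ψ 0 l) ((p ^ T * x + w) / p ^ r))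
      (fun w w' h => (pr_eq.1 h).2) (fun w w' h => by
        have a1 := POSx.key p0 (hlt w) (hlt w') h
        refine pr_eq.2 ⟨?_, ?_⟩
        · rw [blk_shift, blk_shift, zero_add, add_comm l r]
          exact POSx.blk_of_div a1
        · rw [vv_shift, vv_shift, zero_add]
          have a2 : vv p ψ 0 (n + l + r) (p ^ T * x + w) = vv p ψ 0 (n + l + r) (p ^ T * x + w') := by
            rw [show n + l + r = T by omega, vv_eq]
            simpa using (hρ w).trans (hρ w').symm
          have a3 := G.vv_con a2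
          rw [zero_add] at a3
          exact (G.vv_coc p0.ne' (POSx.blk_of_div a1)).1 a3) (fun w w' h => by
        obtain ⟨b1, b2⟩ := pr_eq.1 h
        have b3 := (pr_eq.1 b1).1
        rw [blk_shift, blk_shift, zero_add] at b3
        exact blk_cat le_rfl le_rfl (by omega) b3 b2)
    unfold KK
    rw [FA.map_H, FA.map_H]
    show μ.H _ - μ.H _ ≤ _
    linarith

end Pool.Agent.MP_7915da_nt.J77
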