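import Pool.Agent.MP_7915da_nt.J77.Defs

namespace Pool.Agent.MP_7915da_nt.J77
open Finset Real
open scoped Classical

namespace PROCx

lemma tele (g : ℕ → ℝ) (T l : ℕ) :
    ∑ r ∈ range T, (g r - g (r + l)) = ∑ r ∈ range l, (g r - g (T + r)) := by
  have a := sum_range_add g T l
  have b := sum_range_add g l T
  rw [add_comm l T] at b
  simp only [add_comm l] at b
  rw [sum_sub_distrib, sum_sub_distrib]
  linarith

lemma steps {g : ℕ → ℝ} {c : ℝ} (h : ∀ r, g r ≤ g (r + 1) + c) (r k : ℕ) :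
    g r ≤ g (r + k) + k * c := by
  induction k with
  | zero => simp
  | succ k ih =>
    have := h (r + k)
    rw [← add_assoc]
    push_cast
    linarith

lemma fin (h1 : POS_s) (h2 : MIX_s) (p : ℕ) [hp : Fact p.Prime] (ψ : ℕ → ℕ → ℤ) (θ : ℝ)
    (G : Good p ψ) (T : ℕ) (hT : 1 ≤ T) (hθ : θ * T ≤ log (NN p ψ T)) : ∃ μ : FA ℕ,
    (∀ s : Set ℕ, |μ.P {z | z / p ∈ s} - μ.P s| ≤ 1 / (T : ℝ)) ∧
    ∀ l L : ℕ, θ * l - 2 * (l * (l * log p)) * (1 / (T : ℝ)) ≤ KK p ψ μ 0 l L := by
  obtain ⟨ν, g, a1, a2, -, a4, a5, a6⟩ := h1 p ψ G T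
  obtain ⟨μ, b1, b2⟩ := h2 T hT ν
  have T0 : (0 : ℝ) < T := by exact_mod_cast hT
  have lp : 0 ≤ log (p : ℝ) := log_natCast_nonneg p
  refine ⟨μ, fun s => ?_, fun l L => ?_⟩
  · rw [b1, b1, ← sub_div, abs_div, abs_of_pos T0]
    refine div_le_div_of_nonneg_right ?_ T0.le
    simp only [← a1]
    rw [← sum_sub_distrib, sum_range_sub fun r => (ν r).P s, abs_le]
    constructor <;> linarith [(ν T).nn s, (ν T).le_one s, (ν 0).nn s, (ν 0).le_one s]
  · have e0 : (0 : ℝ) ≤ l * log p := mul_nonneg (Nat.cast_nonneg l) lp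
    have k1 : ∀ r ∈ range T, (g r + if T < r then l * log p else 0) -
        (g (r + l) + if T < r + l then l * log p else 0) ≤ KK p ψ (ν r) 0 l L := by
      intro r hr
      have hr' : ¬ T < r := by have := mem_range.1 hr; omega
      by_cases h : T < r + l
      · rw [if_neg hr', if_pos h]
        have k2 : 0 ≤ KK p ψ (ν r) 0 l L := sub_nonneg.2 ((ν r).H_le_pr _ _)
        linarith [steps a5 r l]
      · rw [if_neg hr', if_neg h]
        linarith [a6 r l L (by omega)]
    have k3 := sum_le_sum k1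
    rw [tele (fun r => g r + if T < r then l * log p else 0) T l] at k3
    have k4 : ∀ r ∈ range l, θ * T - 2 * (l * log p) ≤
        (g r + if T < r then l * log p else 0) -
        (g (T + r) + if T < T + r then l * log p else 0) := by
      intro r hr
      have hr' : (r : ℝ) ≤ l := by exact_mod_cast (mem_range.1 hr).le
      have s1 := steps a5 0 r
      rw [zero_add] at s1
      have s2 := mul_le_mul_of_nonneg_right hr' lp
      rw [a4 (T + r) (by omega)]
      split_ifs <;> linarith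
    have k5 := (sum_le_sum k4).trans k3
    rw [sum_const, card_range, nsmul_eq_mul] at k5
    refine le_trans ?_ (b2 _ _ (blk p 0 l) (pr (blk p (0 + l) L) (vv p ψ 0 l)))
    refine le_trans (le_of_eq ?_) (div_le_div_of_nonneg_right k5 T0.le)
    field_simp

end PROCx

theorem PROC (h1 : POS_s) (h2 : MIX_s) : PROC_s := by
  intro p _ ψ θ G hθ
  choose ν a b using fun T : ℕ => PROCx.fin h1 h2 p ψ θ G (T + 1) (by omega) (hθ (T + 1))
  obtain ⟨μ, c, d⟩ := FA.exists_lim ν
  have z : Filter.Tendsto (fun T : ℕ => 1 / ((T + 1 : ℕ) : ℝ)) (Filter.hyperfilter ℕ) (nhds 0) := by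
    simp only [Nat.cast_succ]
    exact tendsto_one_div_add_atTop_nhds_zero_nat.mono_left Nat.hyperfilter_le_atTop
  refine ⟨μ, G, fun s => ?_, fun l L => ?_⟩
  · have e := le_of_tendsto_of_tendsto' ((c {z | z / p ∈ s}).sub (c s)).abs z fun T => a T s
    exact sub_eq_zero.1 (abs_nonpos_iff.1 e)
  · have e := le_of_tendsto_of_tendsto'
      ((z.const_mul (2 * (l * (l * log p)))).const_sub (θ * l))
      ((d _ (pr (blk p 0 l) (pr (blk p (0 + l) L) (vv p ψ 0 l)))).sub
        (d _ (pr (blk p (0 + l) L) (vv p ψ 0 l)))) fun T => b T l L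
    rw [mul_zero, sub_zero] at e
    exact e

end Pool.Agent.MP_7915da_nt.J77
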