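import Pool.Agent.MP_7915da_nt.J77.Defs

namespace Pool.Agent.MP_7915da_nt.J77
open Finset Real
open scoped Classical

namespace SEQx

lemma triv {Ω : Type} (p : ℕ) [Fact p.Prime] (μ : FA Ω) (φ : Ω → ZMod (p ^ 0)) : μ.H φ = 0 := by
  refine le_antisymm ((μ.H_le_card φ).trans_eq ?_) (μ.H_nonneg φ)
  rw [ZMod.card]
  simp

lemma one {Ω : Type} (p : ℕ) [Fact p.Prime] (μ : FA Ω) (φ : Ω → ZMod (p ^ 1)) :
    μ.H φ ≤ log p := by
  refine (μ.H_le_card φ).trans_eq ?_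
  rw [ZMod.card]
  simp

/-- the top digit of `V_(n+1)` -/
def top (p : ℕ) (ψ : ℕ → ℕ → ℤ) (o n z : ℕ) : ZMod (p ^ 1) :=
  ((ψ (n + 1) (z / p ^ o) / (p : ℤ) ^ n : ℤ) : ZMod (p ^ 1))

lemma top_det {p : ℕ} {ψ : ℕ → ℕ → ℤ} (G : Good p ψ) {o n z z' : ℕ}
    (h : vv p ψ (o + 1) n z = vv p ψ (o + 1) n z') (h' : top p ψ o n z = top p ψ o n z') :
    vv p ψ o (n + 1) z = vv p ψ o (n + 1) z' := by
  rw [vv_eq] at h ⊢
  rw [pow_add, ← Nat.div_div_eq_div_mul, ← Nat.div_div_eq_div_mul] at h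
  have h1 := (G.con n 1 _).trans (h.trans (G.con n 1 _).symm)
  rw [top, top, ZMod.intCast_eq_intCast_iff, pow_one] at h'
  rw [← Int.emod_add_mul_ediv (ψ (n + 1) (z / p ^ o)) ((p : ℤ) ^ n),
    ← Int.emod_add_mul_ediv (ψ (n + 1) (z' / p ^ o)) ((p : ℤ) ^ n), h1, pow_succ]
  exact h'.mul_left'.add_left _

end SEQx
open SEQx

theorem SEQ : SEQ_s := by
  intro p hp ψ μ θ P
  have sh : ∀ n L, μ.H (pr (vv p ψ 1 n) (blk p (n + 1) L)) =
      μ.H (pr (vv p ψ 0 n) (blk p n L)) := fun n L => by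
    rw [← P.inv.H (pr (vv p ψ 0 n) (blk p n L)) 1]
    congr 1
    ext1 z
    simp only [pr, blk_shift, vv_shift, zero_add]
  refine ⟨triv p μ _, fun k => ?_, fun k => ?_, fun k => ?_, fun L => ?_, fun n L => ?_,
    fun n L => ?_, fun n L => ?_⟩
  · have := μ.H_sub (α := blk p 0 (k + 1)) (β := blk p 1 (k + 1)) (δ := blk p 0 (k + 2))
      (ζ := blk p 1 k) (fun z z' e => blk_sub (by omega) (by omega) e)
      (fun z z' e => blk_sub (by omega) (by omega) e)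
      (fun z z' e => blk_cat (by omega) (by omega) (by omega) (pr_eq.1 e).1 (pr_eq.1 e).2)
    simp only [P.inv.Hb] at this
    linarith
  · have f := P.fib 1 k
    rw [KK] at f
    have := μ.H_sub (α := blk p 0 (k + 1)) (β := pr (blk p (0 + 1) k) (vv p ψ 0 1))
      (δ := pr (blk p 0 1) (pr (blk p (0 + 1) k) (vv p ψ 0 1)))
      (ζ := blk p 1 k) (fun z z' e => blk_sub (by omega) (by omega) e)
      (fun z z' e => (pr_eq.1 e).1)
      (fun z z' e => pr_eq.2 ⟨blk_sub (by omega) (by omega) (pr_eq.1 e).1, (pr_eq.1 e).2⟩)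
    simp only [P.inv.Hb] at this
    push_cast at f
    linarith
  · have a := (μ.H_pair (blk p 0 1) (blk p 1 k)).1
    have b := μ.H_det (φ := pr (blk p 0 1) (blk p 1 k)) (χ := blk p 0 (k + 1))
      fun z z' e => blk_cat (by omega) (by omega) (by omega) (pr_eq.1 e).1 (pr_eq.1 e).2
    have c := one p μ (blk p 0 1)
    rw [P.inv.Hb p 1 k] at a
    rw [P.inv.Hb] at b
    linarith
  · have a := (μ.H_pair (vv p ψ 0 0) (blk p 0 L)).1
    have b := μ.H_le_pr (vv p ψ 0 0) (blk p 0 L)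
    rw [triv] at a
    rw [FF]
    linarith
  · have := μ.H_sub (α := pr (vv p ψ 0 n) (blk p n L)) (β := blk p n (L + 1))
      (δ := pr (vv p ψ 0 n) (blk p n (L + 1))) (ζ := blk p n L) (fun z z' e => (pr_eq.1 e).2)
      (fun z z' e => blk_sub (by omega) (by omega) e)
      (fun z z' e => pr_eq.2 ⟨(pr_eq.1 (pr_eq.1 e).1).1, (pr_eq.1 e).2⟩)
    rw [FF, FF]
    linarith
  · have := μ.H_det (φ := pr (vv p ψ 0 (n + 1)) (blk p (n + 1) L))
      (χ := pr (vv p ψ 1 n) (blk p (n + 1) L))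
      fun z z' e => pr_eq.2 ⟨P.good.vv_con (pr_eq.1 e).1, (pr_eq.1 e).2⟩
    rw [FF, FF, ← sh n, P.inv.Hb, P.inv.Hb]
    linarith
  · have a := μ.H_det (φ := pr (top p ψ 0 n) (pr (vv p ψ 1 n) (blk p (n + 1) L)))
      (χ := pr (vv p ψ 0 (n + 1)) (blk p (n + 1) L)) fun z z' e =>
        pr_eq.2 ⟨top_det P.good (pr_eq.1 (pr_eq.1 e).2).1 (pr_eq.1 e).1, (pr_eq.1 (pr_eq.1 e).2).2⟩
    have b := (μ.H_pair (top p ψ 0 n) (pr (vv p ψ 1 n) (blk p (n + 1) L))).1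
    have c := one p μ (top p ψ 0 n)
    rw [FF, FF, ← sh n, P.inv.Hb, P.inv.Hb]
    linarith

end Pool.Agent.MP_7915da_nt.J77
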