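import Pool.Agent.MP_7915da_nt.J77.SEQ

namespace Pool.Agent.MP_7915da_nt.J77
open Finset Real
open scoped Classical
open SEQx

theorem XA : XA_s := by
  intro p hp ψ μ θ P
  refine ⟨fun u r L h => ?_, fun M k r L h => ?_, fun M k r q L h => ?_⟩
  · have f := P.fib u L
    rw [KK, ← P.inv.H (pr (blk p (0 + u) L) (vv p ψ 0 u)) r] at f
    have a := μ.H_det (φ := blk p 0 (L + u))
      (χ := pr (blk p 0 u) (pr (blk p (0 + u) L) (vv p ψ 0 u))) fun z z' e =>
        pr_eq.2 ⟨blk_sub (by omega) (by omega) e, pr_eq.2 ⟨blk_sub (by omega) (by omega) e,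
          P.good.vv_loc (blk_sub (by omega) (by omega) e)⟩⟩
    have b := (μ.H_pair (fun z => pr (blk p (0 + u) L) (vv p ψ 0 u) (z / p ^ r)) (blk p 0 r)).1
    have c := μ.H_det
      (φ := pr (fun z => pr (blk p (0 + u) L) (vv p ψ 0 u) (z / p ^ r)) (blk p 0 r))
      (χ := pr (vv p ψ (u + r - u) u) (pr (blk p (u + r) L) (blk p 0 r))) fun z z' e => by
        obtain ⟨e1, e2⟩ := pr_eq.1 e
        obtain ⟨e3, e4⟩ := pr_eq.1 e1
        simp only [blk_shift, vv_shift, zero_add] at e3 e4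
        rw [Nat.add_sub_cancel_left]
        exact pr_eq.2 ⟨e4, pr_eq.2 ⟨e3, e2⟩⟩
    rw [TT, Hb, Hb]
    linarith
  · obtain ⟨o, rfl⟩ := Nat.exists_eq_add_of_le h
    rw [TT, TT, show k + 1 + o - (k + 1) = o by omega, show k + 1 + o - k = o + 1 by omega]
    have a := μ.H_det (φ := pr (top p ψ o k)
      (pr (vv p ψ (o + 1) k) (pr (blk p (k + 1 + o) L) (blk p 0 r))))
      (χ := pr (vv p ψ o (k + 1)) (pr (blk p (k + 1 + o) L) (blk p 0 r))) fun z z' e =>
        pr_eq.2 ⟨top_det P.good (pr_eq.1 (pr_eq.1 e).2).1 (pr_eq.1 e).1, (pr_eq.1 (pr_eq.1 e).2).2⟩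
    have b := (μ.H_pair (top p ψ o k)
      (pr (vv p ψ (o + 1) k) (pr (blk p (k + 1 + o) L) (blk p 0 r)))).1
    have c := one p μ (top p ψ o k)
    linarith
  · obtain ⟨o, rfl⟩ := Nat.exists_eq_add_of_le h
    have sh : ∀ a k, μ.H (pr (vv p ψ a k) (pr (blk p (k + a) L) (blk p 0 r))) =
        μ.H (pr (vv p ψ (a + q) k) (pr (blk p (k + a + q) L) (blk p q r))) := fun a k => by
      rw [← P.inv.H _ q]
      congr 1
      ext1 z
      simp only [pr, blk_shift, vv_shift, zero_add]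
    have s1 := sh o (k + 1)
    have s2 := sh (o + 1) k
    rw [show k + (o + 1) = k + 1 + o by omega, show o + 1 + q = o + q + 1 by omega] at s2
    rw [TT, TT, TT, TT, show k + 1 + o - (k + 1) = o by omega, show k + 1 + o - k = o + 1 by omega,
      show k + 1 + o + q - (k + 1) = o + q by omega, show k + 1 + o + q - k = o + q + 1 by omega,
      s1, s2]
    have := μ.H_sub
      (α := pr (vv p ψ (o + q) (k + 1)) (pr (blk p (k + 1 + o + q) L) (blk p q r)))
      (β := pr (vv p ψ (o + q + 1) k) (pr (blk p (k + 1 + o + q) L) (blk p 0 (r + q))))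
      (δ := pr (vv p ψ (o + q) (k + 1)) (pr (blk p (k + 1 + o + q) L) (blk p 0 (r + q))))
      (ζ := pr (vv p ψ (o + q + 1) k) (pr (blk p (k + 1 + o + q) L) (blk p q r)))
      (fun z z' e => pr_eq.2 ⟨P.good.vv_con (pr_eq.1 e).1, (pr_eq.1 e).2⟩)
      (fun z z' e => pr_eq.2 ⟨(pr_eq.1 e).1, pr_eq.2 ⟨(pr_eq.1 (pr_eq.1 e).2).1,
        blk_sub (by omega) (by omega) (pr_eq.1 (pr_eq.1 e).2).2⟩⟩)
      (fun z z' e => pr_eq.2 ⟨(pr_eq.1 (pr_eq.1 e).1).1, (pr_eq.1 (pr_eq.1 e).2).2⟩)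
    linarith

end Pool.Agent.MP_7915da_nt.J77
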