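import Pool.Agent.MP_7915da_nt.J77.Defs

namespace Pool.Agent.MP_7915da_nt.J77
open Finset Real
open scoped Classical

namespace XBx

lemma split {Ω A B : Type} [Fintype A] [Fintype B] (μ : FA Ω) (E : Set Ω) (φ : Ω → A) (χ : Ω → B)
    (N1 N0 : ℝ) (h1 : 1 ≤ N1) (h0 : 1 ≤ N0)
    (hE : ∀ z0 ∈ E, ∃ t : Finset A, #t ≤ N1 ∧ ∀ z ∈ E, χ z = χ z0 → φ z ∈ t)
    (hC : ∀ z0 ∉ E, ∃ t : Finset A, #t ≤ N0 ∧ ∀ z ∉ E, χ z = χ z0 → φ z ∈ t) :
    μ.H (pr φ χ) - μ.H χ ≤ log 2 + μ.P E * log N1 + (1 - μ.P E) * log N0 := by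
  set ind : Ω → Bool := fun z => decide (z ∈ E) with hind
  have a1 := μ.H_count φ (pr ind χ) (fun b => if b.1 = true then N1 else N0)
    (fun b => by split_ifs; exacts [h1, h0]) (by
      intro b
      by_cases k : ∃ z0, pr ind χ z0 = b
      · obtain ⟨z0, rfl⟩ := k
        by_cases hz : z0 ∈ E
        · obtain ⟨t, ht, ht'⟩ := hE z0 hz
          refine ⟨t, by simpa [pr, hind, hz] using ht, fun z e => ?_⟩
          obtain ⟨e1, e2⟩ := pr_eq.1 e
          exact ht' z (by simpa [hind, hz] using e1) e2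
        · obtain ⟨t, ht, ht'⟩ := hC z0 hz
          refine ⟨t, by simpa [pr, hind, hz] using ht, fun z e => ?_⟩
          obtain ⟨e1, e2⟩ := pr_eq.1 e
          exact ht' z (by simpa [hind, hz] using e1) e2
      · refine ⟨∅, ?_, fun z e => absurd ⟨z, e⟩ k⟩
        simp only [card_empty, Nat.cast_zero]
        split_ifs <;> linarith)
  have a2 : ∑ b : Bool × B, μ.P {z | pr ind χ z = b} * log (if b.1 = true then N1 else N0)
      = μ.P E * log N1 + (1 - μ.P E) * log N0 := by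
    have c1 : ∀ b : B, {z | pr ind χ z = (true, b)} = {z | χ z = b} ∩ E := by
      intro b; ext z; simp [pr, hind, and_comm]
    have c0 : ∀ b : B, {z | pr ind χ z = (false, b)} = {z | χ z = b} ∩ Eᶜ := by
      intro b; ext z; simp [pr, hind, and_comm]
    have c2 : μ.P Eᶜ = 1 - μ.P E := by
      have := μ.add E Eᶜ disjoint_compl_right
      rw [Set.union_compl_self, μ.one] at this
      linarith
    rw [Fintype.sum_prod_type, Fintype.sum_bool]
    simp only [c1, c0, if_true, Bool.false_eq_true, if_false, ← sum_mul, μ.sum_inter, c2]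
  have a3 := (μ.H_pair ind χ).1
  have a4 := μ.H_le_card ind
  have a5 := μ.H_det (φ := pr φ (pr ind χ)) (χ := pr φ χ) (fun z z' h => by
    obtain ⟨e1, e2⟩ := pr_eq.1 h
    exact pr_eq.2 ⟨e1, (pr_eq.1 e2).2⟩)
  simp only [Fintype.card_bool, Nat.cast_ofNat] at a4
  linarith

lemma glue {p a L x x' w z : ℕ} (h : a ≤ L) (hx : x ≡ x' [MOD p ^ L]) (hz : z = p ^ a * x' + w) :
    p ^ a * x + w ≡ z [MOD p ^ (2 * a)] := by
  rw [hz, two_mul, pow_add]
  exact Nat.ModEq.add_right _ (Nat.ModEq.mul_left' _ (hx.of_dvd (pow_dvd_pow p h)))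

end XBx

theorem XB : XB_s := by
  intro p hp ψ μ θ P u m r L hM hL
  have G := P.good
  have p0 := hp.out.pos
  have p1 : (1 : ℝ) ≤ p := by exact_mod_cast p0
  have hPM : 0 < p ^ (u + r) := pow_pos p0 _
  have hdm : ∀ z : ℕ, z % p ^ (u + r) / p ^ r = z / p ^ r % p ^ u := fun z => by
    rw [add_comm, pow_add, Nat.mod_mul_right_div_self]
  have hmm : ∀ z : ℕ, z % p ^ (u + r) % p ^ r = z % p ^ r := fun z =>
    Nat.mod_mod_of_dvd _ (pow_dvd_pow p (by omega))
  set E : Set ℕ := {z | ∃ w', w' < p ^ (u + r) ∧ w' % p ^ r = z % p ^ r ∧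
    z % p ^ (u + r) / p ^ r ≠ w' / p ^ r ∧
    ψ (u + r) z ≡ ψ (u + r) (p ^ (u + r) * (z / p ^ (u + r)) + w') [ZMOD (p : ℤ) ^ (u + r)]} with hE
  refine ⟨μ.P E, μ.nn _, μ.le_one _, ?_, ?_⟩
  · have a := XBx.split μ E (blk p (u + r) m) (blk p 0 (u + r)) ((p : ℝ) ^ (u + 1)) ((p : ℝ) ^ m)
      (one_le_pow₀ p1) (one_le_pow₀ p1) (by
        intro z0 _
        have h1 : ∀ w', ∃ t : Finset ℕ, #t ≤ p ∧ (w' < p ^ (u + r) →
            z0 % p ^ (u + r) / p ^ r ≠ w' / p ^ r → ∀ x,
            ψ (u + r) (p ^ (u + r) * x + z0 % p ^ (u + r)) ≡ ψ (u + r) (p ^ (u + r) * x + w')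
              [ZMOD (p : ℤ) ^ (u + r)] → x % p ^ m ∈ t) := by
          intro w'
          by_cases k : w' < p ^ (u + r) ∧ z0 % p ^ (u + r) / p ^ r ≠ w' / p ^ r
          · obtain ⟨t, t1, t2⟩ := G.sep u m r _ w' hM (Nat.mod_lt _ hPM) k.1 k.2
            exact ⟨t, t1, fun _ _ => t2⟩
          · exact ⟨∅, by simp, fun k1 k2 => absurd ⟨k1, k2⟩ k⟩
        choose f f1 f2 using h1
        refine ⟨(range (p ^ u)).biUnion
          (fun a => (f (p ^ r * a + z0 % p ^ r)).image (fun n : ℕ => (n : ZMod (p ^ m)))), ?_, ?_⟩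
        · have := card_biUnion_le_card_mul (range (p ^ u))
            (fun a => (f (p ^ r * a + z0 % p ^ r)).image (fun n : ℕ => (n : ZMod (p ^ m)))) p
            (fun a _ => card_image_le.trans (f1 _))
          rw [card_range, ← pow_succ] at this
          exact_mod_cast this
        · intro z hz e
          obtain ⟨w', w1, w2, w3, w4⟩ := hz
          have e1 : z % p ^ (u + r) = z0 % p ^ (u + r) := by simpa [Nat.ModEq] using blk_eq.1 e
          have e2 : z % p ^ r = z0 % p ^ r := by rw [← hmm z, e1, hmm]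
          refine mem_biUnion.2 ⟨w' / p ^ r, mem_range.2 ?_, mem_image.2 ⟨z / p ^ (u + r) % p ^ m, ?_, ?_⟩⟩
          · rw [Nat.div_lt_iff_lt_mul (pow_pos p0 _), ← pow_add]; exact w1
          · rw [← e2, ← w2, Nat.div_add_mod]
            refine f2 w' w1 (e1 ▸ w3) _ ?_
            rw [← e1, Nat.div_add_mod]; exact w4
          · rw [ZMod.natCast_mod]; rfl) (by
        intro z0 _
        refine ⟨univ, ?_, fun z _ _ => mem_univ _⟩
        rw [card_univ, ZMod.card, Nat.cast_pow])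
    have b := μ.H_det (φ := pr (blk p (u + r) m) (blk p 0 (u + r))) (χ := blk p 0 (u + r + m))
      (fun z z' h => by
        obtain ⟨e1, e2⟩ := pr_eq.1 h
        exact blk_cat (by omega) le_rfl (by omega) e2 e1)
    rw [log_pow, log_pow] at a
    have c : μ.P E * (((u + 1 : ℕ) : ℝ) * log p) ≤ (u + 1) * log p := by
      push_cast
      exact mul_le_of_le_one_left (mul_nonneg (by positivity) (log_nonneg p1)) (μ.le_one _)
    unfold Hb
    nlinarith
  · have a := XBx.split μ E (blk p r u)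
      (pr (vv p ψ (u + r - (u + r)) (u + r)) (pr (blk p (u + r) L) (blk p 0 r))) (NN p ψ u) 1
      (by exact_mod_cast NN_pos p0 ψ u) le_rfl (by
        intro z0 _
        refine ⟨({w ∈ range (p ^ u) | ψ u (p ^ u * (z0 / p ^ (u + r)) + w) ≡ ψ u (z0 / p ^ r)
          [ZMOD (p : ℤ) ^ u]} : Finset ℕ).image (fun n : ℕ => (n : ZMod (p ^ u))), ?_, ?_⟩
        · exact_mod_cast card_image_le.trans (cnt_le p ψ u _ _)
        · intro z _ e
          obtain ⟨e1, e2⟩ := pr_eq.1 e
          obtain ⟨e3, -⟩ := pr_eq.1 e2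
          have e5 := G.vv_con e1
          rw [Nat.sub_self, zero_add, vv_eq] at e5
          refine mem_image.2 ⟨z / p ^ r % p ^ u, mem_filter.2
            ⟨mem_range.2 (Nat.mod_lt _ (pow_pos p0 _)), Int.ModEq.trans (G.loc u _ _ ?_) e5⟩, ?_⟩
          · refine XBx.glue (by omega) (blk_eq.1 e3).symm ?_
            rw [add_comm u r, pow_add, ← Nat.div_div_eq_div_mul, Nat.div_add_mod]
          · rw [ZMod.natCast_mod]; rfl) (by
        intro z0 _
        refine ⟨{blk p r u z0}, by simp, fun z hz e => ?_⟩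
        obtain ⟨e1, e2⟩ := pr_eq.1 e
        obtain ⟨e3, e4⟩ := pr_eq.1 e2
        rw [mem_singleton]
        by_contra k
        apply hz
        rw [Nat.sub_self, vv_eq] at e1
        simp only [pow_zero, Nat.div_one] at e1
        refine ⟨z0 % p ^ (u + r), Nat.mod_lt _ hPM, ?_, ?_, e1.trans (G.loc _ _ _ ?_).symm⟩
        · rw [hmm]; simpa [Nat.ModEq] using (blk_eq.1 e4).symm
        · rw [hdm, hdm]; exact fun h => k (blk_eq.2 h)
        · exact XBx.glue hL (blk_eq.1 e3) (Nat.div_add_mod _ _).symm)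
    have b := μ.H_det (φ := pr (blk p r u)
      (pr (vv p ψ (u + r - (u + r)) (u + r)) (pr (blk p (u + r) L) (blk p 0 r))))
      (χ := blk p 0 (L + (u + r))) (fun z z' h => by
        obtain ⟨e0, e⟩ := pr_eq.1 h
        obtain ⟨-, e2⟩ := pr_eq.1 e
        obtain ⟨e3, e4⟩ := pr_eq.1 e2
        have e5 : blk p 0 (u + r) z = blk p 0 (u + r) z' :=
          blk_cat (by omega) le_rfl (by omega) e4 e0
        exact blk_cat (by omega) le_rfl (by omega) e5 e3)
    have l2 : 0 ≤ log (2 : ℝ) := log_nonneg (by norm_num)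
    rw [log_one, mul_zero, add_zero] at a
    unfold Hb TT
    linarith

end Pool.Agent.MP_7915da_nt.J77
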