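import Pool.Agent.MP_7915da_nt.J77.PAD
import Pool.Agent.MP_7915da_nt.J77.POS
import Pool.Agent.MP_7915da_nt.J77.MIX
import Pool.Agent.MP_7915da_nt.J77.PROC
import Pool.Agent.MP_7915da_nt.J77.CAP
import Pool.Agent.MP_7915da_nt.J77.GAIN
import Pool.Agent.MP_7915da_nt.J77.AVG
import Pool.Agent.MP_7915da_nt.J77.SEQ
import Pool.Agent.MP_7915da_nt.J77.MON
import Pool.Agent.MP_7915da_nt.J77.XA
import Pool.Agent.MP_7915da_nt.J77.XB
import Pool.Agent.MP_7915da_nt.J77.I1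
import Pool.Agent.MP_7915da_nt.J77.I2
import Pool.Agent.MP_7915da_nt.J77.I3
import Pool.Agent.MP_7915da_nt.J77.I4
import Pool.Agent.MP_7915da_nt.J77.INC
import Pool.Agent.MP_7915da_nt.J77.ENT
import Pool.Agent.MP_7915da_nt.J77.END

namespace Pool.Agent.MP_7915da_nt.J77
open Finset Real Filter

theorem main (p : ℕ) [hp : Fact p.Prime] : Goal p := by
  obtain ⟨ψ, G, sub, fin⟩ := PAD p
  have N1 : ∀ n, (1 : ℝ) ≤ NN p ψ n := fun n => by exact_mod_cast NN_pos hp.out.pos ψ n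
  have S : Subadditive fun n => log (NN p ψ n) := fun n k => by
    rw [← log_mul (by linarith [N1 n]) (by linarith [N1 k])]
    exact log_le_log (by linarith [N1 (n + k)]) (by exact_mod_cast sub n k)
  have bd : BddBelow (Set.range fun n : ℕ => log (NN p ψ n) / n) :=
    ⟨0, by rintro _ ⟨n, rfl⟩; exact div_nonneg (log_nonneg (N1 n)) n.cast_nonneg⟩
  have ev : ∀ e, 0 < e → ∃ l0 : ℕ, ∀ l, l0 ≤ l → log (NN p ψ l) ≤ (S.lim + e) * l := fun e he => by
    obtain ⟨l0, h⟩ := eventually_atTop.1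
      ((S.tendsto_lim bd).eventually (gt_mem_nhds (lt_add_of_pos_right S.lim he)))
    refine ⟨l0 + 1, fun l hl => ?_⟩
    exact ((div_lt_iff₀ (by exact_mod_cast (show 0 < l by omega))).1 (h l (by omega))).le
  have th : S.lim ≤ 0 := by
    by_contra k
    have k := not_le.1 k
    obtain ⟨μ, P⟩ := PROC POS MIX p ψ S.lim G fun T => by
      rcases T.eq_zero_or_pos with rfl | hT
      · simpa using log_nonneg (N1 0)
      · exact (le_div_iff₀ (by exact_mod_cast hT)).1 (S.lim_le_div bd hT.ne')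
    obtain ⟨s1, s2, s3, s4, s5, s6, s7, s8⟩ := SEQ p ψ μ _ P
    obtain ⟨x1, x2, x3⟩ := XA p ψ μ _ P
    have lp : 0 < log p := log_pos (by exact_mod_cast hp.out.one_lt)
    obtain ⟨c, c0, hc⟩ := ENT p (log p) S.lim (fun n => log (NN p ψ n)) (Hb p μ) (TT p ψ μ)
      hp.out.two_le lp k ev s1 s2 s3 s4 x1 x2 x3 (XB p ψ μ _ P)
    refine END (log p) S.lim c (fun n => log (NN p ψ n)) (Hb p μ) (FF p ψ μ) (TT p ψ μ) lp k c0 ev
      s2 s3 s5 s6 s7 s8 (MON p ψ μ _ P) (fun l hl => ?_) hc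
    obtain ⟨δ, d0, hd⟩ := GAIN p l (c / 2) (S.lim * l / 2) hl (half_pos c0)
      (half_pos (mul_pos k (by exact_mod_cast hl)))
    exact ⟨δ, d0, INC AVG CAP I1 I2 I3 I4 p ψ μ _ P k l c δ hl c0 d0 hd⟩
  refine fin fun e he => ?_
  obtain ⟨l0, h⟩ := ev e he
  refine ⟨l0 + 1, by omega, (h _ (by omega)).trans ?_⟩
  exact mul_le_mul_of_nonneg_right (by linarith) (Nat.cast_nonneg _)

end Pool.Agent.MP_7915da_nt.J77
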