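import Pool.Agent.MP_7915da_nt.J77.Defs
import Pool.Agent.MP_7915da_nt.PAdic

namespace Pool.Agent.MP_7915da_nt.J77
open Finset Real
open scoped Classical

namespace PADx

variable (p : ℕ) [hp : Fact p.Prime]

/-- the residue attached to the last `n` digits of `z` -/
noncomputable def ps (n z : ℕ) : ℤ := (H77jP.V p n (z / p ^ n) (z % p ^ n) : ℤ)

lemma ps_block (n x w : ℕ) (hw : w < p ^ n) : ps p n (p ^ n * x + w) = (H77jP.V p n x w : ℤ) := by
  have hP : 0 < p ^ n := pow_pos hp.out.pos _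
  unfold ps
  rw [Nat.mul_add_div hP, Nat.div_eq_of_lt hw, add_zero, Nat.mul_add_mod, Nat.mod_eq_of_lt hw]

lemma V_eq_of (n x w x' w' : ℕ)
    (h : (H77jP.V p n x w : ℤ) ≡ (H77jP.V p n x' w' : ℤ) [ZMOD (p : ℤ) ^ n]) :
    H77jP.V p n x w = H77jP.V p n x' w' := by
  have h1 : H77jP.V p n x w ≡ H77jP.V p n x' w' [MOD p ^ n] := by
    rw [← Int.natCast_modEq_iff]; push_cast; exact h
  exact Nat.ModEq.eq_of_lt_of_lt h1 (H77jP.V_lt p _ _ _) (H77jP.V_lt p _ _ _)

lemma split (n k z : ℕ) : ∃ x w w', w < p ^ n ∧ w' < p ^ k ∧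
    z = p ^ (n + k) * x + (p ^ k * w + w') ∧ z / p ^ k = p ^ n * x + w ∧
    z = p ^ k * (p ^ n * x + w) + w' := by
  refine ⟨z / p ^ k / p ^ n, z / p ^ k % p ^ n, z % p ^ k, Nat.mod_lt _ (pow_pos hp.out.pos _),
    Nat.mod_lt _ (pow_pos hp.out.pos _), ?_, (Nat.div_add_mod _ _).symm, ?_⟩
  · conv_lhs => rw [← Nat.div_add_mod z (p ^ k), ← Nat.div_add_mod (z / p ^ k) (p ^ n)]
    ring
  · rw [Nat.div_add_mod, Nat.div_add_mod]

lemma sep1 (u m r w w' : ℕ) (hM : p * (u + m) ≤ u + r) (hw : w < p ^ (u + r)) (hlt : w' < w)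
    (hne : w / p ^ r ≠ w' / p ^ r) : ∃ t : Finset ℕ, #t ≤ p ∧ ∀ x,
      H77jP.V p (u + r) x w = H77jP.V p (u + r) x w' → x % p ^ m ∈ t := by
  set t := (range (p ^ m)).filter
    (fun a => ∃ x, x % p ^ m = a ∧ H77jP.V p (u + r) x w = H77jP.V p (u + r) x w') with ht
  have h1 : ∀ a, ∃ x, a ∈ t →
      x % p ^ m = a ∧ H77jP.V p (u + r) x w = H77jP.V p (u + r) x w' := by
    intro a
    by_cases ha : a ∈ t
    · obtain ⟨x, hx⟩ := (mem_filter.1 ha).2
      exact ⟨x, fun _ => hx⟩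
    · exact ⟨0, fun h => absurd h ha⟩
  choose f hf using h1
  have h2 := H77jP.SEP p (u + r) u m w w' hw hlt (by rwa [Nat.add_sub_cancel_left]) hM (t.image f)
    (by
      intro x hx
      obtain ⟨a, ha, rfl⟩ := mem_image.1 hx
      exact (hf a ha).2)
  refine ⟨t, le_trans (card_le_card ?_) (h2.trans (Nat.sub_le _ _)), fun x hx => ?_⟩
  · intro a ha
    exact mem_image.2 ⟨f a, mem_image_of_mem f ha, (hf a ha).1⟩
  · exact mem_filter.2 ⟨mem_range.2 (Nat.mod_lt _ (pow_pos hp.out.pos _)), x, rfl, hx⟩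

lemma good : Good p (ps p) := by
  refine ⟨fun n z z' h => ?_, fun n k z => ?_, fun n k z => ?_, fun u m r w w' hM hw hw' hne => ?_⟩
  · have h1 : z % p ^ n = z' % p ^ n := h.of_dvd (pow_dvd_pow p (by omega))
    have h2 : z / p ^ n % p ^ n = z' / p ^ n % p ^ n := by
      rw [← Nat.mod_mul_right_div_self, ← Nat.mod_mul_right_div_self, ← pow_add, ← two_mul]
      exact congrArg (fun a => a / p ^ n) h
    unfold ps
    rw [h1, H77jP.LOC p n _ _ _ (Nat.mod_lt _ (pow_pos hp.out.pos _)) h2]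
  · obtain ⟨x, w, w', hw, hw', e1, e2, -⟩ := split p n k z
    rw [e2, ps_block p n x w hw, ← H77jP.CON p n k x w w' hw hw']
    conv_lhs => rw [e1, ps_block p (n + k) x _ (H77jP.lt_block p n k w w' hw hw')]
    push_cast
    exact (Int.mod_modEq _ _).symm
  · obtain ⟨x, w, w', hw, hw', e1, e2, e3⟩ := split p n k z
    have l1 := H77jP.lt_block p n k w w' hw hw'
    have a1 : ps p (n + k) z = H77jP.V p (n + k) x (p ^ k * w + w') := by
      rw [e1, ps_block p (n + k) x _ l1]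
    have a2 : ps p (n + k) (p ^ k * (z / p ^ k)) = H77jP.V p (n + k) x (p ^ k * w) := by
      have : p ^ k * (p ^ n * x + w) = p ^ (n + k) * x + p ^ k * w := by ring
      rw [e2, this, ps_block p (n + k) x _ (by omega)]
    have a3 : ps p k z = H77jP.V p k (p ^ n * x + w) w' := by
      rw [e3, ps_block p k _ _ hw']
    rw [a1, a2, a3, H77jP.COC p n k x w w' hw hw']
    push_cast
    exact Int.mod_modEq _ _
  · rcases lt_trichotomy w' w with h | h | h
    · obtain ⟨t, h1, h2⟩ := sep1 p u m r w w' hM hw h hne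
      refine ⟨t, h1, fun x hx => h2 x ?_⟩
      rw [ps_block p _ x w hw, ps_block p _ x w' hw'] at hx
      exact V_eq_of p _ _ _ _ _ hx
    · exact absurd (by rw [h]) hne
    · obtain ⟨t, h1, h2⟩ := sep1 p u m r w' w hM hw' h hne.symm
      refine ⟨t, h1, fun x hx => h2 x ?_⟩
      rw [ps_block p _ x w hw, ps_block p _ x w' hw'] at hx
      exact (V_eq_of p _ _ _ _ _ hx).symm

lemma NN_eq (n : ℕ) : NN p (ps p) n = H77jP.NN p n := by
  refine le_antisymm ?_ ?_
  · obtain ⟨x, ρ, h⟩ := NN_mem p (ps p) n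
    rw [← h]
    unfold cnt
    rcases ({w ∈ range (p ^ n) | ps p n (p ^ n * x + w) ≡ ρ [ZMOD (p : ℤ) ^ n]}).eq_empty_or_nonempty
      with he | ⟨w0, hw0⟩
    · rw [he]; simp
    · refine le_trans (card_le_card ?_) (H77jP.CAP p n x (H77jP.V p n x w0))
      intro w hw
      rw [mem_filter, mem_range] at hw hw0 ⊢
      refine ⟨hw.1, V_eq_of p _ _ _ _ _ ?_⟩
      rw [← ps_block p n x w hw.1, ← ps_block p n x w0 hw0.1]
      exact hw.2.trans hw0.2.symm
  · obtain ⟨x, r, -, -, h⟩ := H77jP.NN_attained p n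
    rw [← h]
    refine le_trans (card_le_card ?_) (cnt_le p (ps p) n x r)
    intro w hw
    rw [mem_filter, mem_range] at hw ⊢
    refine ⟨hw.1, ?_⟩
    rw [ps_block p n x w hw.1, hw.2]

end PADx

theorem PAD : PAD_s := by
  intro p hp
  refine ⟨PADx.ps p, PADx.good p, fun n k => ?_, fun h ε hε => ?_⟩
  · simp only [PADx.NN_eq]
    exact H77jP.SUB p n k
  · simp only [PADx.NN_eq] at h
    obtain ⟨C, hC⟩ := H77jP.FINAL p h ε hε
    refine ⟨C, fun r y x hx => ?_⟩
    convert hC r y x hx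

end Pool.Agent.MP_7915da_nt.J77
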